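import Pool.Agent.SYS.ST.Defs

/-!
# SYSS-ST-Gls: weight of the regions after the first gluing; weight of the single faces

PROOF. `gs_sum`: a member `q` of `GS 𝒩` comes from `s ∈ 𝒩` and `z = T.a s.2 ∈ s.1.B` (`NSt`: `z` is in the hole of `s.2`); `s` and `z` determine `q.1 = gl s.1 s.2 z` and `q.2` (the element after `z` in `s.1.hw s.2`: `hw_nodup`), so `GS 𝒩` injects into the pairs `(s, z)`, `z ∈ s.1.B`, `|s.1.B| ≤ b`; `Wt x q.1 ≤ Wt x s.1` (`wt_gl`), `q.1.R = s.1.R` (`glue_R`).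
`gs_sc`: `gl_sc`; `q.2 ∈ q.1.B`: it is in `s.1.B`, different from `s.2` and `T.a s.2` (`hw_nodup`), `glue_B`.
`s0_sum`: a member is determined by the three darts `q.2, t1, t2`: at most `6 n (6 n - 1) (6 n - 2)` members; `Sc 0 q.1 (2 n - 1)` (`typ_emp`, `typ_newTri`, `Con`), `Wt x q.1 = (6 n - 3)! * AA x ^ 3 * √(yy x) ^ (-2)` (`wt_eq`, `newTri_B`), `|q.1.R| = 3`.
-/

namespace SYS.ST

open Classical SST SYS.Num SYS.CH

private theorem gls_eq {D : Type} {Y : Part D} {y z : D} (hy : y ∈ Y.B) (hz : z ∈ Y.B) : gl Y y z = Y.glue y z hy hz := by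
  unfold gl
  rw [dif_pos ⟨hy, hz⟩]

theorem gs_sc {n b : ℕ} {𝒩 : Finset (Part (Fin (6 * n)) × Fin (6 * n))} (h : ∀ s ∈ 𝒩, (∃ F, Sc 0 s.1 F) ∧ s.2 ∈ s.1.B ∧ s.1.B.ncard ≤ b)
    {q : Part (Fin (6 * n)) × Fin (6 * n)} (hq : q ∈ GS 𝒩) : (∃ F, Sc 1 q.1 F) ∧ q.2 ∈ q.1.B ∧ q.1.B.ncard ≤ b := by
  obtain ⟨s, hs, T, u, v, hle, hN, hq1⟩ := mem_GS.1 hq
  obtain ⟨⟨F, hF⟩, hx, hb⟩ := h s hs
  obtain ⟨h1, h2, -, -, -⟩ := gl_sc hF hle hN
  rw [hq1]
  refine ⟨⟨F, h1⟩, ?_, by omega⟩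
  obtain ⟨hu, -, hw, hx', hy, -⟩ := hN
  rw [gls_eq hx' hy]
  have hne : s.2 ≠ T.a s.2 := (T.ane s.2).symm
  rw [Part.glue_B _ _ _ hne]
  have hnd := s.1.hw_nodup hx'
  have hmem : q.2 ∈ s.1.hw s.2 := by
    rw [hw]
    simp
  have hB := ((Part.mem_hw _ hx').1 hmem).1
  refine ⟨hB, ?_⟩
  rw [hw, List.nodup_cons, List.nodup_append, List.nodup_cons] at hnd
  obtain ⟨n1, n2, ⟨n3, n4⟩, n5⟩ := hnd
  rintro (h3 | h3)
  · apply n1
    rw [← h3]
    simp
  · have h4 : q.2 = T.a s.2 := h3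
    apply n3
    rw [← h4]
    simp

/-- the next gate from the glued pair -/
private noncomputable def gnx {D : Type} [Finite D] (S : Part D) (x z : D) : D :=
  if h : ∃ e, ∃ u v : List D, S.hw x = x :: (u ++ z :: e :: v) then h.choose else x

private theorem gnx_eq {D : Type} [Finite D] {S : Part D} {x z e : D} {u v : List D} (hx : x ∈ S.B)
    (hw : S.hw x = x :: (u ++ z :: e :: v)) : gnx S x z = e := by
  have hex : ∃ e, ∃ u v : List D, S.hw x = x :: (u ++ z :: e :: v) := ⟨e, u, v, hw⟩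
  unfold gnx
  rw [dif_pos hex]
  obtain ⟨u', v', hw'⟩ := hex.choose_spec
  generalize hex.choose = e' at hw' ⊢
  have hnd := S.hw_nodup hx
  have h1 : u ++ z :: e :: v = u' ++ z :: e' :: v' := by
    have h2 := hw.symm.trans hw'
    exact (List.cons_eq_cons.1 h2).2
  rw [hw, List.nodup_cons, List.nodup_append] at hnd
  obtain ⟨-, -, n3, n4⟩ := hnd
  have hu : z ∉ u := fun h => n4 z h z List.mem_cons_self rfl
  have hnd' := S.hw_nodup hx
  rw [hw', List.nodup_cons, List.nodup_append] at hnd'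
  obtain ⟨-, -, n3', n4'⟩ := hnd'
  have hu' : z ∉ u' := fun h => n4' z h z List.mem_cons_self rfl
  have key : ∀ (u u' : List D), z ∉ u → z ∉ u' → u ++ z :: e :: v = u' ++ z :: e' :: v' → e = e' := by
    intro u
    induction u with
    | nil =>
      intro u' _ hu' h
      cases u' with
      | nil =>
        have := (List.cons_eq_cons.1 h).2
        exact (List.cons_eq_cons.1 this).1
      | cons c u' =>
        have h3 := (List.cons_eq_cons.1 h).1
        exact absurd (h3 ▸ List.mem_cons_self) hu'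
    | cons c u ih =>
      intro u' hu hu' h
      cases u' with
      | nil =>
        have h3 := (List.cons_eq_cons.1 h).1
        exact absurd (h3 ▸ List.mem_cons_self) hu
      | cons c' u' =>
        have h3 := (List.cons_eq_cons.1 h).2
        exact ih u' (fun h' => hu (List.mem_cons_of_mem _ h')) (fun h' => hu' (List.mem_cons_of_mem _ h')) h3
  exact (key u u' hu hu' h1).symm

theorem gs_sum {n b : ℕ} {x c : ℝ} (hx : 0 < x) {𝒩 : Finset (Part (Fin (6 * n)) × Fin (6 * n))}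
    (h : ∀ s ∈ 𝒩, (∃ F, Sc 0 s.1 F) ∧ s.2 ∈ s.1.B ∧ s.1.B.ncard ≤ b) : Ws x c (GS 𝒩) ≤ b * Ws x c 𝒩 := by
  have hpos : ∀ X : Part (Fin (6 * n)), 0 ≤ Wt x X * Real.exp (c * X.R.ncard) := fun X =>
    mul_nonneg (wt_pos hx X).le (Real.exp_pos _).le
  set 𝒬 : Finset (Σ _ : Part (Fin (6 * n)) × Fin (6 * n), Fin (6 * n)) :=
    (𝒩.sigma fun s => (Set.toFinite s.1.B).toFinset).filter fun p =>
      ∃ (T : Tri (Fin (6 * n))) (u : List (Fin (6 * n))) (e : Fin (6 * n)) (v : List (Fin (6 * n))),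
        p.1.1.Le T ∧ p.1.1.NSt T p.1.2 u (e :: v) ∧ T.a p.1.2 = p.2 with h𝒬
  have hsub : GS 𝒩 ⊆ 𝒬.image fun p => (gl p.1.1 p.1.2 p.2, gnx p.1.1 p.1.2 p.2) := by
    intro q hq
    obtain ⟨s, hs, T, u, v, hle, hN, hq1⟩ := mem_GS.1 hq
    obtain ⟨hu, hv, hw, hx', hy, hcn⟩ := hN
    rw [Finset.mem_image]
    refine ⟨⟨s, T.a s.2⟩, ?_, ?_⟩
    · rw [h𝒬, Finset.mem_filter, Finset.mem_sigma]
      refine ⟨⟨hs, by simpa using hy⟩, T, u, q.2, v, hle, ⟨hu, hv, hw, hx', hy, hcn⟩, rfl⟩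
    · show (gl s.1 s.2 (T.a s.2), gnx s.1 s.2 (T.a s.2)) = q
      rw [← hq1, gnx_eq hx' hw]
  unfold Ws
  calc ∑ q ∈ GS 𝒩, Wt x q.1 * Real.exp (c * q.1.R.ncard)
      ≤ ∑ q ∈ 𝒬.image fun p => (gl p.1.1 p.1.2 p.2, gnx p.1.1 p.1.2 p.2), Wt x q.1 * Real.exp (c * q.1.R.ncard) :=
        Finset.sum_le_sum_of_subset_of_nonneg hsub fun q _ _ => hpos q.1
    _ ≤ ∑ p ∈ 𝒬, Wt x (gl p.1.1 p.1.2 p.2) * Real.exp (c * (gl p.1.1 p.1.2 p.2).R.ncard) :=
        Finset.sum_image_le_of_nonneg fun q _ => hpos q.1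
    _ ≤ ∑ p ∈ 𝒬, Wt x p.1.1 * Real.exp (c * p.1.1.R.ncard) := by
        refine Finset.sum_le_sum fun p hp => ?_
        rw [h𝒬, Finset.mem_filter, Finset.mem_sigma] at hp
        obtain ⟨⟨hp1, -⟩, T, u, e, v, hle, hN, hT⟩ := hp
        obtain ⟨⟨F, hF⟩, -, -⟩ := h p.1 hp1
        have h1 := wt_gl hx hF hle hN
        have h2 : (gl p.1.1 p.1.2 (T.a p.1.2)).R = p.1.1.R := by
          obtain ⟨-, -, -, hx', hy, -⟩ := hN
          rw [gls_eq hx' hy, Part.glue_R]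
        rw [← hT, h2]
        exact mul_le_mul_of_nonneg_right h1 (Real.exp_pos _).le
    _ ≤ ∑ p ∈ 𝒩.sigma fun s => (Set.toFinite s.1.B).toFinset, Wt x p.1.1 * Real.exp (c * p.1.1.R.ncard) :=
        Finset.sum_le_sum_of_subset_of_nonneg (Finset.filter_subset _ _) fun p _ _ => hpos p.1.1
    _ = ∑ s ∈ 𝒩, (s.1.B.ncard : ℝ) * (Wt x s.1 * Real.exp (c * s.1.R.ncard)) := by
        rw [Finset.sum_sigma]
        refine Finset.sum_congr rfl fun s _ => ?_
        show ∑ _ ∈ (Set.toFinite s.1.B).toFinset, Wt x s.1 * Real.exp (c * s.1.R.ncard) = _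
        rw [Finset.sum_const, nsmul_eq_mul, Set.ncard_eq_toFinset_card s.1.B (Set.toFinite _)]
    _ ≤ ∑ s ∈ 𝒩, (b : ℝ) * (Wt x s.1 * Real.exp (c * s.1.R.ncard)) := by
        refine Finset.sum_le_sum fun s hs => ?_
        refine mul_le_mul_of_nonneg_right ?_ (hpos s.1)
        exact_mod_cast (h s hs).2.2
    _ = b * ∑ q ∈ 𝒩, Wt x q.1 * Real.exp (c * q.1.R.ncard) := by rw [Finset.mul_sum]

theorem s0_sc {n : ℕ} (hn : 1 ≤ n) {q : Part (Fin (6 * n)) × Fin (6 * n)} (hq : q ∈ S0 n) :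
    Sc 0 q.1 (2 * n - 1) ∧ q.2 ∈ q.1.B ∧ q.1.B.ncard = 3 ∧ q.1.R.ncard = 3 ∧ Fan q.1 q.2 q.2 := by
  obtain ⟨t1, t2, h0, h1, h2, h01, h12, h20, hq1⟩ := mem_S0.1 hq
  have he : 2 * n = 2 * n - 1 + 1 := by omega
  have hemp := Part.typ_emp hn
  rw [he] at hemp
  have hT := Part.typ_newTri hemp h0 h1 h2 h01 h12 h20
  rw [← hq1] at hT
  have hBR : q.1.B = q.1.R := by
    have k1 := Part.newTri_B Part.emp h0 h1 h2 h01 h12 h20
    have k2 := Part.newTri_R Part.emp h0 h1 h2 h01 h12 h20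
    have k3 : (Part.emp : Part (Fin (6 * n))).R = ∅ := by
      ext d
      exact ⟨fun hd => absurd rfl hd, fun hd => absurd hd (Set.notMem_empty d)⟩
    have k4 : (Part.emp : Part (Fin (6 * n))).B = ∅ := by
      ext d
      exact ⟨fun hd => absurd rfl hd.1, fun hd => absurd hd (Set.notMem_empty d)⟩
    rw [hq1, k1, k2, k3, k4]
  have hB : q.2 ∈ q.1.B := by
    have k1 := Part.newTri_B Part.emp h0 h1 h2 h01 h12 h20
    rw [hq1, k1]
    exact Or.inr (Or.inl rfl)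
  have hR : q.2 ∈ q.1.R := hBR ▸ hB
  have hB3 : q.1.B.ncard = 3 := by
    rw [typ_B hT]
    simp
  refine ⟨⟨?_, _, _, hT, rfl⟩, hB, hB3, hBR ▸ hB3, hR, hB, 0, rfl, fun j hj => absurd hj (Nat.not_lt_zero j)⟩
  have hcn : ∀ d ∈ q.1.R, q.1.Cn q.2 d := by
    intro d hd
    rw [← hBR] at hd
    obtain ⟨e, he1, he2⟩ := hT.hl.2.2 d hd
    rw [List.mem_singleton] at he1
    subst he1
    exact Part.cn_of_same he2
  intro d hd e he
  exact Part.cn_trans (Part.cn_symm (hcn d hd)) (hcn e he)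

theorem s0_sum {n : ℕ} (hn : 1 ≤ n) {x c : ℝ} (hx : 0 < x) :
    Ws x c (S0 n) ≤ AA x ^ 3 / yy x * Real.exp (3 * c) * (6 * n).factorial := by
  have hyy := yy_pos x
  have hs : 0 < √(yy x) := Real.sqrt_pos.2 hyy
  have hs2 : √(yy x) ^ 2 = yy x := Real.sq_sqrt hyy.le
  have hA0 : 0 < AA x := by
    have := AA_gt x
    linarith
  have hnR : ∀ d : Fin (6 * n), d ∉ (Part.emp : Part (Fin (6 * n))).R := fun d hd => hd rfl
  have hterm : ∀ q ∈ S0 n, Wt x q.1 * Real.exp (c * q.1.R.ncard) =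
      ((6 * n - 3).factorial : ℝ) * (AA x ^ 3 / yy x * Real.exp (3 * c)) := by
    intro q hq
    obtain ⟨h1, -, h3, h4, -⟩ := s0_sc hn hq
    rw [wt_eq h1, h3, h4]
    unfold wtF
    have e1 : ((2 * n : ℤ) - ((2 * n - 1 : ℕ) : ℤ) - ((3 : ℕ) : ℤ)) = -2 := by
      have : ((2 * n - 1 : ℕ) : ℤ) = 2 * n - 1 := by
        rw [Nat.cast_sub (by omega)]
        push_cast
        ring
      rw [this]
      push_cast
      ring
    have e2 : √(yy x) ^ (-2 : ℤ) = (yy x)⁻¹ := by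
      have e3 : √(yy x) ^ (2 : ℤ) = √(yy x) ^ 2 := by norm_cast
      rw [zpow_neg, e3, hs2]
    have e4 : 3 * (2 * n - 1) = 6 * n - 3 := by omega
    rw [e1, e2, e4]
    have e5 : c * ((3 : ℕ) : ℝ) = 3 * c := by
      push_cast
      ring
    rw [e5, div_eq_mul_inv]
    ring
  have hcard : (S0 n).card ≤ (6 * n).descFactorial 3 := by
    have hsub : S0 n ⊆ Finset.univ.image fun e : Fin 3 ↪ Fin (6 * n) =>
        (Part.emp.newTri (e 0) (e 1) (e 2) (hnR _) (hnR _) (hnR _) (fun h => by simpa using e.injective h)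
          (fun h => by simpa using e.injective h) (fun h => by simpa using e.injective h), e 0) := by
      intro q hq
      obtain ⟨t1, t2, h0, h1, h2, h01, h12, h20, hq1⟩ := mem_S0.1 hq
      rw [Finset.mem_image]
      have hinj : Function.Injective ![q.2, t1, t2] := by
        intro i j hij
        fin_cases i <;> fin_cases j
        · rfl
        · exact absurd hij h01
        · exact absurd hij.symm h20
        · exact absurd hij.symm h01
        · rfl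
        · exact absurd hij h12
        · exact absurd hij h20
        · exact absurd hij.symm h12
        · rfl
      refine ⟨⟨![q.2, t1, t2], hinj⟩, Finset.mem_univ _, ?_⟩
      exact Prod.ext hq1.symm rfl
    calc (S0 n).card ≤ _ := Finset.card_le_card hsub
      _ ≤ (Finset.univ : Finset (Fin 3 ↪ Fin (6 * n))).card := Finset.card_image_le
      _ = (6 * n).descFactorial 3 := by
          rw [Finset.card_univ, Fintype.card_embedding_eq, Fintype.card_fin, Fintype.card_fin]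
  unfold Ws
  rw [Finset.sum_congr rfl hterm, Finset.sum_const, nsmul_eq_mul]
  have hf : ((6 * n - 3).factorial : ℝ) * ((6 * n).descFactorial 3 : ℕ) = (6 * n).factorial := by
    have := Nat.factorial_mul_descFactorial (n := 6 * n) (k := 3) (by omega)
    exact_mod_cast this
  have hc0 : 0 ≤ AA x ^ 3 / yy x * Real.exp (3 * c) := by positivity
  calc ((S0 n).card : ℝ) * (((6 * n - 3).factorial : ℝ) * (AA x ^ 3 / yy x * Real.exp (3 * c)))
      ≤ (((6 * n).descFactorial 3 : ℕ) : ℝ) * (((6 * n - 3).factorial : ℝ) * (AA x ^ 3 / yy x * Real.exp (3 * c))) := by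
        refine mul_le_mul_of_nonneg_right ?_ (by positivity)
        exact_mod_cast hcard
    _ = AA x ^ 3 / yy x * Real.exp (3 * c) * (((6 * n - 3).factorial : ℝ) * ((6 * n).descFactorial 3 : ℕ)) := by ring
    _ = _ := by rw [hf]

end SYS.ST
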