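import Pool.Agent.SYS.ST.Defs
import Pool.Agent.SYS.CH.NodW
import Pool.Agent.SYS.PX.Br

/-!
# SYSS-ST-Emb: types and weights of the regions of a run

PROOF. `rchg_br`: induction on `w` (for all histories): for `s :: w`: `S.St x s S₁ z`, the induction hypothesis gives `b'` for `S₁`, `σ .. S₁ z`; `b Z := if Z = S then some x else b' Z`. `x ∈ S.B`, `x ∉ S₁.B` (for `T`: `face`: `S₁.a x ≠ x`; `L`, `R`: `glue`), and all later regions `Z` have `S₁.Sub Z` (`rchg_sub`), so `x ∉ Z.B`, `Z ≠ S`: the rule `b'` is not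
changed on them (prove: if `BR b' Z z w Z' z'` and `b = b'` on all `Z''` with `Z.Sub Z''` then `BR b Z z w Z' z'`). The gate `σ .. S₁ z` must be in the hole of `z`: `hσ`.
`run_sc`: `sc_typ`, `rchg_typ`, `st_con` (`CH/NodC`) along the run. `run_wt`: `rchg_br`, `wt_node`.
-/

namespace SYS.ST

open Classical SST SYS.Num SYS.CH

section
variable {D : Type} [Finite D] {S Y : Part D} {x y : D} {w : List Stp} {c F : ℕ}

private theorem em_congr {b b' : Part D → Option D} {Z Z' : Part D} {z z' : D} (hb : ∀ Z'' : Part D, Z.Sub Z'' → b Z'' = b' Z'')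
    (h : Part.BR b' Z z w Z' z') : Part.BR b Z z w Z' z' := by
  induction w generalizing Z z with
  | nil => exact h
  | cons s w ih =>
    obtain ⟨d, Z₁, z₁, h1, h2, h3, h4, h5⟩ := h
    exact ⟨d, Z₁, z₁, by rw [hb Z (Part.sub_refl Z)]; exact h1, h2, h3, h4,
      ih (fun Z'' hZ => hb Z'' (Part.sub_trans (Part.st_sub h4).1 hZ)) h5⟩

private theorem em_base {b : Part D → Option D} {Z Z' : Part D} {z g z' : D} (hg : Z.s.SameCycle z g)
    (h : Part.BR b Z g w Z' z') : ∃ z'', Part.BR b Z z w Z' z'' ∧ Z'.s.SameCycle z'' z' := by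
  cases w with
  | nil =>
    obtain ⟨rfl, rfl⟩ := h
    exact ⟨z, ⟨rfl, rfl⟩, hg⟩
  | cons s w =>
    obtain ⟨d, Z₁, z₁, h1, h2, h3, h4, h5⟩ := h
    exact ⟨z', ⟨d, Z₁, z₁, h1, h2, hg.trans h3, h4, h5⟩, Equiv.Perm.SameCycle.refl _ _⟩

theorem rchg_br {σ : List Stp → Part D → D → D} (hσ : Part.Rul σ) {h : List Stp} (hx : x ∈ S.B) (hr : Part.RchG σ h S x w Y y) :
    ∃ (b : Part D → Option D) (y' : D), Part.BR b S x w Y y' ∧ Y.s.SameCycle y' y := by
  induction w generalizing h S x with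
  | nil =>
    obtain ⟨rfl, rfl⟩ := hr
    exact ⟨fun _ => none, y, ⟨rfl, rfl⟩, Equiv.Perm.SameCycle.refl _ _⟩
  | cons s w ih =>
    obtain ⟨S₁, z, hst, hr⟩ := hr
    have hz := (Part.st_sub hst).2.2
    have hg := hσ (h ++ [s]) S₁ z hz
    obtain ⟨b', y', hbr, hy⟩ := ih hg.1 hr
    have hne : ∀ Z : Part D, S₁.Sub Z → Z ≠ S := by
      rintro Z hZ rfl
      obtain ⟨h1, h2⟩ := Part.st_strict hst
      exact h2 ((hZ.2 x h2).symm.trans h1)
    have hbr' : Part.BR (fun Z => if Z = S then some x else b' Z) S₁ (σ (h ++ [s]) S₁ z) w Y y' :=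
      em_congr (fun Z hZ => if_neg (hne Z hZ)) hbr
    obtain ⟨y'', h1, h2⟩ := em_base hg.2 hbr'
    exact ⟨_, y'', ⟨x, S₁, z, if_pos rfl, hx, Equiv.Perm.SameCycle.refl _ _, hst, h1⟩, h2.trans hy⟩

private theorem em_con {σ : List Stp → Part D → D → D} {h : List Stp} (hc : S.Con) (hr : Part.RchG σ h S x w Y y) : Y.Con := by
  induction w generalizing h S x with
  | nil =>
    obtain ⟨rfl, rfl⟩ := hr
    exact hc
  | cons s w ih =>
    obtain ⟨S₁, z, hst, hr⟩ := hr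
    exact ih (st_con hc hst) hr

theorem run_sc (hS : Sc c S F) (hx : x ∈ S.B) (hr : Run S x w Y y) : y ∈ Y.B ∧ WOk (S.per x) w ∧ ∃ F', F' + wvol w = F ∧ Sc c Y F' := by
  obtain ⟨l, P, hl, hT, hB⟩ := sc_typ hS hx
  obtain ⟨hok, F', hF', hY⟩ := Part.rchg_typ srg_rul hT hr
  refine ⟨hY.hl.1 y List.mem_cons_self, hok, F', hF', em_con hS.1 hr, y :: l, _, hY, ?_⟩
  rw [List.length_cons, hl]

end

theorem run_wt {n c F : ℕ} {S Y : Part (Fin (6 * n))} {x y : Fin (6 * n)} {w : List Stp} {X : ℝ} (hX : 0 < X) (hS : Sc c S F) (hx : x ∈ S.B)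
    (hr : Run S x w Y y) : Wt X Y = Part.nwt X F w * Wt X S ∧ Y.R.ncard = S.R.ncard + 3 * wvol w := by
  obtain ⟨b, y', h1, _⟩ := rchg_br srg_rul hx hr
  refine ⟨wt_node hX hS hx h1, ?_⟩
  obtain ⟨_, _, F', hF', hY⟩ := run_sc hS hx hr
  have h2 := sc_F hS
  have h3 := sc_F hY
  omega

end SYS.ST
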