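import Pool.Agent.SYS.ST.Num
import Pool.Agent.SYS.ST.Emb

/-!
# SYSS-ST-Sum: weight of the nodes and of the ends

PROOF. `so_sum hx`: `c, K`. `NN b 𝒮 ∪ XX b 𝒮`: every member comes from some `s ∈ 𝒮`, a word `w` (`SO` or `SC`) and a run, so the sum over it is at most the sum over `s ∈ 𝒮` of the sum over the finite set of the triples `(w, q)` which occur; for fixed `s` (with `Sc c' s.1 F`) the words which occur are a finite set `𝒲` (choose one triple for every member, or use that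
`wvol w ≤ F` and the length of `w` is at most `2 F + |B|`); for fixed `w` the regions `q` with `Run s.1 s.2 w q.1 q.2` number `m` with `m * nwt x F w = PRW x w` (`nwt_word`, `sc_typ`, `run_sc`), and `Wt x q.1 * exp (c |q.1.R|) = nwt x F w * Wt x s.1 * exp (c |s.1.R|) * exp (c * 3 wvol w)` (`run_wt`). Sum over `𝒲`: `so_sum`.
-/

namespace SYS.ST

open Classical SST SYS.Num SYS.CH

private theorem prw_nn {x : ℝ} (w : List Stp) : 0 ≤ PRW x w := by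
  have hA : 0 < AA x := by
    have := AA_gt x
    linarith
  refine wwt_nonneg hA.le (fun k a => ?_) w
  unfold qq
  have hW : 0 ≤ W k a := W_nonneg k a
  have hy := (yy_pos x).le
  positivity

private theorem one_word {x : ℝ} (hx : 0 < x) {n c' : ℕ} {c : ℝ} {s : Part (Fin (6 * n)) × Fin (6 * n)} {F : ℕ}
    (hS : Sc c' s.1 F) (hs : s.2 ∈ s.1.B) (w : List Stp) :
    ∑ q : Part (Fin (6 * n)) × Fin (6 * n), (if Run s.1 s.2 w q.1 q.2 then Wt x q.1 * Real.exp (c * q.1.R.ncard) else 0) ≤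
      PRW x w * Real.exp (c * (3 * wvol w)) * (Wt x s.1 * Real.exp (c * s.1.R.ncard)) := by
  by_cases hex : ∃ q : Part (Fin (6 * n)) × Fin (6 * n), Run s.1 s.2 w q.1 q.2
  swap
  · push Not at hex
    rw [Finset.sum_eq_zero fun q _ => if_neg (hex q)]
    exact mul_nonneg (mul_nonneg (prw_nn w) (Real.exp_pos _).le) (mul_nonneg (wt_pos hx _).le (Real.exp_pos _).le)
  obtain ⟨q0, hq0⟩ := hex
  obtain ⟨-, hok, F', hF', -⟩ := run_sc hS hs hq0
  obtain ⟨l, P, -, hT, -⟩ := sc_typ hS hs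
  have h1 := Part.nwt_word (h := []) x (srg_rul (D := Fin (6 * n))) hT hok (by omega : wvol w ≤ F)
  rw [← Finset.sum_filter]
  have h2 : ∀ q ∈ Finset.univ.filter (fun q : Part (Fin (6 * n)) × Fin (6 * n) => Run s.1 s.2 w q.1 q.2),
      Wt x q.1 * Real.exp (c * q.1.R.ncard) =
        Part.nwt x F w * (Real.exp (c * (3 * wvol w)) * (Wt x s.1 * Real.exp (c * s.1.R.ncard))) := by
    intro q hq
    obtain ⟨h3, h4⟩ := run_wt hx hS hs (Finset.mem_filter.1 hq).2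
    rw [h3, h4]
    push_cast
    rw [show c * ((s.1.R.ncard : ℝ) + 3 * (wvol w : ℝ)) = c * (3 * (wvol w : ℝ)) + c * (s.1.R.ncard : ℝ) by ring, Real.exp_add]
    ring
  rw [Finset.sum_congr rfl h2, Finset.sum_const, nsmul_eq_mul, ← h1]
  have h5 : (Finset.univ.filter (fun q : Part (Fin (6 * n)) × Fin (6 * n) => Run s.1 s.2 w q.1 q.2)).card =
      {q : Part (Fin (6 * n)) × Fin (6 * n) | Part.RchG srg [] s.1 s.2 w q.1 q.2}.ncard := by
    rw [← Set.ncard_coe_finset]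
    congr 1
    ext q
    rw [Finset.mem_coe, Finset.mem_filter]
    exact ⟨fun h => h.2, fun h => ⟨Finset.mem_univ _, h⟩⟩
  rw [h5]
  apply le_of_eq
  ring

theorem run_sum {x : ℝ} (hx : 0 < x) : ∃ c K : ℝ, 0 < c ∧ 0 < K ∧ ∀ (n b c' : ℕ) (𝒮 : Finset (Part (Fin (6 * n)) × Fin (6 * n))),
    (∀ s ∈ 𝒮, (∃ F, Sc c' s.1 F) ∧ s.2 ∈ s.1.B) → Ws x c (NN b 𝒮) ≤ K * Ws x c 𝒮 ∧ Ws x c (XX b 𝒮) ≤ K * Ws x c 𝒮 := by
  obtain ⟨c, K, hc, hK, hso⟩ := so_sum hx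
  refine ⟨c, K, hc, hK, fun n b c' 𝒮 h𝒮 => ?_⟩
  have key : ∀ 𝒩 : Finset (Part (Fin (6 * n)) × Fin (6 * n)),
      (∀ q ∈ 𝒩, ∃ s ∈ 𝒮, ∃ w, (SO w ∨ SC w) ∧ Run s.1 s.2 w q.1 q.2) → Ws x c 𝒩 ≤ K * Ws x c 𝒮 := by
    intro 𝒩 h𝒩
    have h𝒩' : ∀ q, ∃ t : (Part (Fin (6 * n)) × Fin (6 * n)) × List Stp, q ∈ 𝒩 →
        t.1 ∈ 𝒮 ∧ (SO t.2 ∨ SC t.2) ∧ Run t.1.1 t.1.2 t.2 q.1 q.2 := by
      intro q
      by_cases hq : q ∈ 𝒩
      · obtain ⟨s, hs, w, hw, hr⟩ := h𝒩 q hq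
        exact ⟨(s, w), fun _ => ⟨hs, hw, hr⟩⟩
      · exact ⟨(q, []), fun h => absurd h hq⟩
    choose τ hτ using h𝒩'
    obtain ⟨𝒲, h𝒲⟩ : ∃ 𝒲 : Finset (List Stp), 𝒲 = 𝒩.image fun q => (τ q).2 := ⟨_, rfl⟩
    have hW : ∀ w ∈ 𝒲, SO w ∨ SC w := by
      intro w hw
      rw [h𝒲] at hw
      obtain ⟨q, hq, rfl⟩ := Finset.mem_image.1 hw
      exact (hτ q hq).2.1
    have hf0 : ∀ q : Part (Fin (6 * n)) × Fin (6 * n), 0 ≤ Wt x q.1 * Real.exp (c * q.1.R.ncard) := fun q =>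
      mul_nonneg (wt_pos hx _).le (Real.exp_pos _).le
    have hi0 : ∀ (s : Part (Fin (6 * n)) × Fin (6 * n)) (w : List Stp) (q : Part (Fin (6 * n)) × Fin (6 * n)),
        0 ≤ if Run s.1 s.2 w q.1 q.2 then Wt x q.1 * Real.exp (c * q.1.R.ncard) else 0 := by
      intro s w q
      split_ifs
      · exact hf0 q
      · exact le_rfl
    calc Ws x c 𝒩 = ∑ q ∈ 𝒩, Wt x q.1 * Real.exp (c * q.1.R.ncard) := rfl
      _ ≤ ∑ q ∈ 𝒩, ∑ s ∈ 𝒮, ∑ w ∈ 𝒲,
          (if Run s.1 s.2 w q.1 q.2 then Wt x q.1 * Real.exp (c * q.1.R.ncard) else 0) := by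
        refine Finset.sum_le_sum fun q hq => ?_
        obtain ⟨h1, h2, h3⟩ := hτ q hq
        have h4 : (τ q).2 ∈ 𝒲 := by
          rw [h𝒲]
          exact Finset.mem_image_of_mem _ hq
        refine le_trans ?_ (Finset.single_le_sum (f := fun s => ∑ w ∈ 𝒲,
          (if Run s.1 s.2 w q.1 q.2 then Wt x q.1 * Real.exp (c * q.1.R.ncard) else 0))
          (fun s _ => Finset.sum_nonneg fun w _ => hi0 s w q) h1)
        refine le_trans ?_ (Finset.single_le_sum (f := fun w =>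
          (if Run (τ q).1.1 (τ q).1.2 w q.1 q.2 then Wt x q.1 * Real.exp (c * q.1.R.ncard) else 0))
          (fun w _ => hi0 (τ q).1 w q) h4)
        show _ ≤ if Run (τ q).1.1 (τ q).1.2 (τ q).2 q.1 q.2 then _ else _
        rw [if_pos h3]
      _ ≤ ∑ q : Part (Fin (6 * n)) × Fin (6 * n), ∑ s ∈ 𝒮, ∑ w ∈ 𝒲,
          (if Run s.1 s.2 w q.1 q.2 then Wt x q.1 * Real.exp (c * q.1.R.ncard) else 0) :=
        Finset.sum_le_sum_of_subset_of_nonneg (Finset.subset_univ _) fun q _ _ =>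
          Finset.sum_nonneg fun s _ => Finset.sum_nonneg fun w _ => hi0 s w q
      _ = ∑ s ∈ 𝒮, ∑ w ∈ 𝒲, ∑ q : Part (Fin (6 * n)) × Fin (6 * n),
          (if Run s.1 s.2 w q.1 q.2 then Wt x q.1 * Real.exp (c * q.1.R.ncard) else 0) := by
        rw [Finset.sum_comm]
        refine Finset.sum_congr rfl fun s _ => ?_
        rw [Finset.sum_comm]
      _ ≤ ∑ s ∈ 𝒮, ∑ w ∈ 𝒲, PRW x w * Real.exp (c * (3 * wvol w)) * (Wt x s.1 * Real.exp (c * s.1.R.ncard)) := by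
        refine Finset.sum_le_sum fun s hs => Finset.sum_le_sum fun w _ => ?_
        obtain ⟨⟨F, hF⟩, hb⟩ := h𝒮 s hs
        exact one_word hx hF hb w
      _ ≤ ∑ s ∈ 𝒮, K * (Wt x s.1 * Real.exp (c * s.1.R.ncard)) := by
        refine Finset.sum_le_sum fun s _ => ?_
        rw [← Finset.sum_mul]
        exact mul_le_mul_of_nonneg_right (hso 𝒲 hW) (hf0 s)
      _ = K * Ws x c 𝒮 := by
        unfold Ws
        rw [Finset.mul_sum]
  constructor
  · refine key _ fun q hq => ?_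
    obtain ⟨s, hs, w, hw, hr, -⟩ := mem_NN.1 hq
    exact ⟨s, hs, w, Or.inl hw, hr⟩
  · refine key _ fun q hq => ?_
    obtain ⟨s, hs, w, hw, hr, -⟩ := mem_XX.1 hq
    exact ⟨s, hs, w, Or.inr hw, hr⟩

end SYS.ST
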