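import Pool.Agent.SYS.ST.Go
import Pool.Agent.SYS.ST.Sum
import Pool.Agent.SYS.ST.Gls

/-!
# SYSS-ST-Main: starts at the star of a vertex of large degree

PROOF. `run_sum hx`: `c, K` (may assume `1 ≤ K`: replace `K` by `max K 1`). `NN0 = NN b (S0 n)`, `XX0 = XX b (S0 n)`, `G = GS NN0`, `NN1 = NN b G`, `XX1 = XX b G`. Sums `Ws x c`: `S0`: `C0 (6 n)!` (`s0_sum`); `NN0`, `XX0`: `K C0 (6n)!`; `G`: `b K C0 (6n)!` (`gs_sum`); `NN1`, `XX1`: `K² b C0 (6n)!`.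
`𝒳 0` = regions (first components) of the members of `XX0` with `D0 ≤ |R|`; `𝒳 1` = the same for `XX1`; `𝒴 0 = NN0`, `𝒴 1 = NN1`; `𝒵 0`, `𝒵 1` = regions of the members of `NN0`, `NN1` with `|B| = b` (then `b ≤ |R|`: `B ⊆ R`). The sum of `Wt` over an image of a set is at most the sum over the set (`Finset.sum_image_le`-type, all terms are nonnegative: `wt_pos`), and with
`D0 ≤ |R|`: `Wt ≤ exp (-c D0) * Wt * exp (c |R|)`. `Sc`: `s0_sc`, `run_sc`, `gs_sc`.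
Deterministic part: `S = ` the face of `t` (`(S, t) ∈ S0 n`, `S.Le T`: `newTri_le`, `HConn`: see the start in `GoodC` / `SYS/LR` or `Lib/Typ`; `Fan S t t`). `go` with `κ = 0`: at the node `Y`, `y` (a member of `NN0`): `|B| = b`: `𝒵 0`. `L`: `X ∈ XX0` (the word `w ++ [L k a]`, `rchg_append`), `fan_L`, `deg_le`: `D0 ≤ T.deg t ≤ |X.R|`, `t ∈ X.R`: `𝒳 0`. `Sep`: `Tm 0`: `𝒴 0`. `Mrg` at `c = 0`: impossible
(one hole). `NSt u v` with `v = z :: v'` (`v ≠ []`): `(gl Y y (T.a y), z) ∈ G`, `gl_sc`, `fan_gl`, `sc_typ` (`l` of length `1`): `go` again: `|B| = b`: `𝒵 1`; `L`: `𝒳 1`; `NSt`, `Sep`, `Mrg`: `Tm 1`: `𝒴 1`.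
-/

namespace SYS.ST

open Classical SST SYS.Num SYS.CH

section
variable {D : Type} [Finite D]

private theorem mn_emp_hconn {T : Tri D} (hT : T.Conn) : (Part.emp : Part D).HConn T := by
  intro d _ e _
  have hX : ∀ d : D, d ∈ (Part.emp : Part D).X := fun d => Or.inl (fun h => h rfl)
  have hR : ∀ d : D, d ∉ (Part.emp : Part D).R := fun d h => h rfl
  have h1 := hT {e | (Part.emp : Part D).Hc T d e} ⟨d, Relation.EqvGen.refl d⟩ (by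
    intro e he
    exact ⟨Part.hc_trans he (Part.hc_a (hX e)), Part.hc_trans he (Part.hc_f (hR e))⟩)
  have h2 : e ∈ (Set.univ : Set D) := Set.mem_univ e
  rw [← h1] at h2
  exact h2

private theorem mn_hconn {S : Part D} {T : Tri D} {t : D} (h0 : t ∉ S.R) (h1 : T.f t ∉ S.R) (h2 : T.f (T.f t) ∉ S.R)
    (h01 : t ≠ T.f t) (h12 : T.f t ≠ T.f (T.f t)) (h20 : T.f (T.f t) ≠ t) (hS : S.Le T) (hh : S.HConn T) :
    (S.newTri t (T.f t) (T.f (T.f t)) h0 h1 h2 h01 h12 h20).HConn T := by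
  have hX : ∀ d, d ∈ (S.newTri t (T.f t) (T.f (T.f t)) h0 h1 h2 h01 h12 h20).X → d ∈ S.X := by
    intro d
    show (d ∉ (S.newTri t (T.f t) (T.f (T.f t)) h0 h1 h2 h01 h12 h20).R ∨
      d ∈ (S.newTri t (T.f t) (T.f (T.f t)) h0 h1 h2 h01 h12 h20).B) → (d ∉ S.R ∨ d ∈ S.B)
    rw [Part.newTri_R, Part.newTri_B]
    rintro (h3 | h3 | h3)
    · exact Or.inl fun h4 => h3 (Or.inl h4)
    · exact Or.inr h3
    · left
      rw [Set.mem_insert_iff, Set.mem_insert_iff, Set.mem_singleton_iff] at h3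
      rcases h3 with rfl | rfl | rfl
      · exact h0
      · exact h1
      · exact h2
  intro d hd e he
  exact (Part.hc_newTri hS h0 h1 h2 d e).2 (hh d (hX d hd) e (hX e he))

private theorem mn_face {T : Tri D} (hT : T.Conn) (t : D) :
    ∃ (S : Part D) (t1 t2 : D) (h0 : t ∉ (Part.emp : Part D).R) (h1 : t1 ∉ (Part.emp : Part D).R)
      (h2 : t2 ∉ (Part.emp : Part D).R) (h01 : t ≠ t1) (h12 : t1 ≠ t2) (h20 : t2 ≠ t),
      S = Part.emp.newTri t t1 t2 h0 h1 h2 h01 h12 h20 ∧ S.Le T ∧ S.HConn T := by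
  have hR : ∀ d : D, d ∉ (Part.emp : Part D).R := fun d h => h rfl
  have h01 : t ≠ T.f t := (T.fne t).symm
  have h12 : T.f t ≠ T.f (T.f t) := (T.fne _).symm
  have h20 : T.f (T.f t) ≠ t := by
    intro h
    have h3 := T.fff t
    rw [h] at h3
    exact T.fne t h3
  exact ⟨_, _, _, hR _, hR _, hR _, h01, h12, h20, rfl,
    Part.newTri_le _ (hR _) (hR _) (hR _) h01 h12 h20 (Part.emp_le T) rfl rfl,
    mn_hconn (hR _) (hR _) (hR _) h01 h12 h20 (Part.emp_le T) (mn_emp_hconn hT)⟩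

end

variable {n : ℕ}

private theorem mn_nn {b c' : ℕ} {𝒮 : Finset (Part (Fin (6 * n)) × Fin (6 * n))}
    (h : ∀ s ∈ 𝒮, (∃ F, Sc c' s.1 F) ∧ s.2 ∈ s.1.B) :
    ∀ q ∈ NN b 𝒮, (∃ F, Sc c' q.1 F) ∧ q.2 ∈ q.1.B ∧ q.1.B.ncard ≤ b := by
  intro q hq
  obtain ⟨s, hs, w, -, hr, hb⟩ := mem_NN.1 hq
  obtain ⟨⟨F, hF⟩, hsB⟩ := h s hs
  obtain ⟨h1, -, F', -, h2⟩ := run_sc hF hsB hr
  exact ⟨⟨F', h2⟩, h1, hb⟩

private theorem mn_xx {b c' : ℕ} {𝒮 : Finset (Part (Fin (6 * n)) × Fin (6 * n))}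
    (h : ∀ s ∈ 𝒮, (∃ F, Sc c' s.1 F) ∧ s.2 ∈ s.1.B) :
    ∀ q ∈ XX b 𝒮, (∃ F, Sc c' q.1 F) ∧ q.2 ∈ q.1.B ∧ q.1.B.ncard ≤ b := by
  intro q hq
  obtain ⟨s, hs, w, -, hr, hb⟩ := mem_XX.1 hq
  obtain ⟨⟨F, hF⟩, hsB⟩ := h s hs
  obtain ⟨h1, -, F', -, h2⟩ := run_sc hF hsB hr
  exact ⟨⟨F', h2⟩, h1, hb⟩

private theorem mn_img {x c : ℝ} (hx : 0 < x) (hc : 0 < c) (𝒬 : Finset (Part (Fin (6 * n)) × Fin (6 * n)))
    (p : Part (Fin (6 * n)) → Prop) [DecidablePred p] (E : ℕ) (hp : ∀ X, p X → E ≤ X.R.ncard) :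
    ∑ X ∈ (𝒬.image Prod.fst).filter p, Wt x X ≤ Real.exp (-(c * E)) * Ws x c 𝒬 := by
  have h1 : ∀ q : Part (Fin (6 * n)) × Fin (6 * n), (if p q.1 then Wt x q.1 else 0) ≤
      Real.exp (-(c * E)) * (Wt x q.1 * Real.exp (c * q.1.R.ncard)) := by
    intro q
    have hw := wt_pos hx q.1
    split_ifs with h
    · have h2 : (E : ℝ) ≤ q.1.R.ncard := by exact_mod_cast hp _ h
      have h3 : 1 ≤ Real.exp (-(c * E)) * Real.exp (c * q.1.R.ncard) := by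
        rw [← Real.exp_add]
        apply Real.one_le_exp
        nlinarith
      calc Wt x q.1 = Wt x q.1 * 1 := (mul_one _).symm
        _ ≤ Wt x q.1 * (Real.exp (-(c * E)) * Real.exp (c * q.1.R.ncard)) := mul_le_mul_of_nonneg_left h3 hw.le
        _ = _ := by ring
    · positivity
  have h2 : ∑ X ∈ (𝒬.image Prod.fst).filter p, Wt x X ≤ ∑ q ∈ 𝒬, (if p q.1 then Wt x q.1 else 0) := by
    rw [Finset.sum_filter]
    rw [Finset.sum_comp (fun X => if p X then Wt x X else 0) Prod.fst]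
    apply Finset.sum_le_sum
    intro X hX
    obtain ⟨q, hq, hqX⟩ := Finset.mem_image.1 hX
    have h3 : 1 ≤ (𝒬.filter (fun a => Prod.fst a = X)).card :=
      Finset.card_pos.2 ⟨q, Finset.mem_filter.2 ⟨hq, hqX⟩⟩
    have h4 : 0 ≤ (if p X then Wt x X else 0) := by
      split_ifs
      · exact (wt_pos hx X).le
      · exact le_rfl
    rw [nsmul_eq_mul]
    have h5 : (1 : ℝ) ≤ ((𝒬.filter (fun a => Prod.fst a = X)).card : ℝ) := by exact_mod_cast h3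
    calc (if p X then Wt x X else 0) = 1 * (if p X then Wt x X else 0) := (one_mul _).symm
      _ ≤ _ := mul_le_mul_of_nonneg_right h5 h4
  refine h2.trans ?_
  unfold Ws
  rw [Finset.mul_sum]
  exact Finset.sum_le_sum fun q _ => h1 q

private theorem mn_ws0 {x c : ℝ} (hx : 0 < x) (𝒬 : Finset (Part (Fin (6 * n)) × Fin (6 * n))) : 0 ≤ Ws x c 𝒬 :=
  Finset.sum_nonneg fun q _ => mul_nonneg (wt_pos hx q.1).le (Real.exp_pos _).le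

private theorem mn_wt {x c : ℝ} (hx : 0 < x) (hc : 0 < c) (𝒬 : Finset (Part (Fin (6 * n)) × Fin (6 * n))) :
    ∑ q ∈ 𝒬, Wt x q.1 ≤ Ws x c 𝒬 := by
  apply Finset.sum_le_sum
  intro q _
  have h1 : 1 ≤ Real.exp (c * q.1.R.ncard) := Real.one_le_exp (by positivity)
  calc Wt x q.1 = Wt x q.1 * 1 := (mul_one _).symm
    _ ≤ _ := mul_le_mul_of_nonneg_left h1 (wt_pos hx q.1).le

private theorem mn_mx {b : ℕ} {𝒮 : Finset (Part (Fin (6 * n)) × Fin (6 * n))} {s : Part (Fin (6 * n)) × Fin (6 * n)} (hs : s ∈ 𝒮)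
    {w : List Stp} (hw : SO w) {Y X : Part (Fin (6 * n))} {y z t : Fin (6 * n)} (hr : Run s.1 s.2 w Y y) {T : Tri (Fin (6 * n))}
    (hf : Fan Y t y) {k a D0 : ℕ} (hst : Y.St y (.L k a) X z) (hX : X.Le T) (hb : X.B.ncard ≤ b) (hD : D0 ≤ T.deg t) :
    X ∈ ((XX b 𝒮).image Prod.fst).filter (fun X => D0 ≤ X.R.ncard) ∧ t ∈ X.R := by
  obtain ⟨h1, h2⟩ := fan_L hf hst
  refine ⟨Finset.mem_filter.2 ⟨Finset.mem_image.2 ⟨(X, z), ?_, rfl⟩, hD.trans (deg_le hX h1 h2)⟩, h1⟩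
  refine mem_XX.2 ⟨s, hs, w ++ [.L k a], ⟨w, k, a, rfl, hw⟩, ?_, hb⟩
  exact Part.rchg_append.2 ⟨Y, y, hr, X, z, hst, rfl, rfl⟩

theorem star_start {x : ℝ} (hx : 0 < x) : ∃ C c0 : ℝ, 0 < C ∧ 0 < c0 ∧ ∀ n g b D0 : ℕ, 1 ≤ n → 1 ≤ g → 3 ≤ b →
    ∃ (𝒳 𝒵 : ℕ → Finset (Part (Fin (6 * n)))) (𝒴 : ℕ → Finset (Part (Fin (6 * n)) × Fin (6 * n))),
      (∀ c, c ≤ 1 → (∀ X ∈ 𝒳 c, (∃ F, Sc c X F) ∧ X.B.ncard ≤ b) ∧
        (∀ q ∈ 𝒴 c, (∃ F, Sc c q.1 F) ∧ q.2 ∈ q.1.B ∧ q.1.B.ncard ≤ b) ∧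
        (∀ Z ∈ 𝒵 c, (∃ F, Sc c Z F) ∧ Z.B.ncard ≤ b ∧ Z.R.Nonempty) ∧
        ∑ X ∈ 𝒳 c, Wt x X ≤ C * b * Real.exp (-(c0 * D0)) * (6 * n).factorial ∧
        ∑ q ∈ 𝒴 c, Wt x q.1 ≤ C * b * (6 * n).factorial ∧
        ∑ Z ∈ 𝒵 c, Wt x Z ≤ C * b * Real.exp (-(c0 * b)) * (6 * n).factorial) ∧
      ∀ T ∈ Trn n g, ∀ t : Fin (6 * n), D0 ≤ T.deg t → ∃ c, c ≤ 1 ∧
        ((∃ X ∈ 𝒳 c, X.Le T ∧ X.HConn T ∧ t ∈ X.R) ∨ (∃ q ∈ 𝒴 c, q.1.Le T ∧ q.1.HConn T ∧ Tm c T q.1 q.2) ∨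
          ∃ Z ∈ 𝒵 c, Z.Le T ∧ Z.HConn T) := by
  obtain ⟨c0, K1, hc0, hK1, hrun⟩ := run_sum hx
  set K : ℝ := max K1 1 with hK
  have hK1' : K1 ≤ K := le_max_left _ _
  have hK1'' : 1 ≤ K := le_max_right _ _
  have hA : 0 < AA x := by
    have := AA_gt x
    linarith
  set C0 : ℝ := AA x ^ 3 / yy x * Real.exp (3 * c0) with hC0
  have hC0p : 0 < C0 := mul_pos (div_pos (pow_pos hA 3) (yy_pos x)) (Real.exp_pos _)
  refine ⟨K ^ 2 * C0, c0, by positivity, hc0, ?_⟩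
  intro n g b D0 hn hg hb
  set NN0 := NN b (S0 n) with hNN0
  set XX0 := XX b (S0 n) with hXX0
  set G := GS NN0 with hG
  set NN1 := NN b G with hNN1
  set XX1 := XX b G with hXX1
  have hS0 : ∀ s ∈ S0 n, (∃ F, Sc 0 s.1 F) ∧ s.2 ∈ s.1.B := fun s hs =>
    ⟨⟨_, (s0_sc hn hs).1⟩, (s0_sc hn hs).2.1⟩
  have hN0 := mn_nn (b := b) hS0
  have hX0 := mn_xx (b := b) hS0
  have hGm : ∀ s ∈ G, (∃ F, Sc 1 s.1 F) ∧ s.2 ∈ s.1.B := fun s hs =>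
    ⟨(gs_sc hN0 hs).1, (gs_sc hN0 hs).2.1⟩
  have hN1 := mn_nn (b := b) hGm
  have hX1 := mn_xx (b := b) hGm
  have hfac : (0 : ℝ) < ((6 * n).factorial : ℝ) := by exact_mod_cast Nat.factorial_pos _
  have hb1 : (1 : ℝ) ≤ b := by
    have : 1 ≤ b := by omega
    exact_mod_cast this
  have w0 : Ws x c0 (S0 n) ≤ C0 * (6 * n).factorial := s0_sum hn hx
  have w0' : 0 ≤ Ws x c0 (S0 n) := mn_ws0 hx _
  have wN0 : Ws x c0 NN0 ≤ K * (C0 * (6 * n).factorial) :=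
    (hrun n b 0 (S0 n) hS0).1.trans (mul_le_mul hK1' w0 w0' (by linarith))
  have wX0 : Ws x c0 XX0 ≤ K * (C0 * (6 * n).factorial) :=
    (hrun n b 0 (S0 n) hS0).2.trans (mul_le_mul hK1' w0 w0' (by linarith))
  have wG : Ws x c0 G ≤ b * (K * (C0 * (6 * n).factorial)) :=
    (gs_sum hx hN0).trans (mul_le_mul_of_nonneg_left wN0 (by linarith))
  have wG' : 0 ≤ Ws x c0 G := mn_ws0 hx _
  have wN1 : Ws x c0 NN1 ≤ K * (b * (K * (C0 * (6 * n).factorial))) :=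
    (hrun n b 1 G hGm).1.trans (mul_le_mul hK1' wG wG' (by linarith))
  have wX1 : Ws x c0 XX1 ≤ K * (b * (K * (C0 * (6 * n).factorial))) :=
    (hrun n b 1 G hGm).2.trans (mul_le_mul hK1' wG wG' (by linarith))
  have hM1 : K * (b * (K * (C0 * (6 * n).factorial))) = K ^ 2 * C0 * b * (6 * n).factorial := by ring
  have hM0 : K * (C0 * (6 * n).factorial) ≤ K ^ 2 * C0 * b * (6 * n).factorial := by
    have h1 : K * (C0 * (6 * n).factorial) * 1 ≤ K * (C0 * (6 * n).factorial) * (K * b) := by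
      apply mul_le_mul_of_nonneg_left _ (by positivity)
      nlinarith
    calc K * (C0 * (6 * n).factorial) = K * (C0 * (6 * n).factorial) * 1 := (mul_one _).symm
      _ ≤ K * (C0 * (6 * n).factorial) * (K * b) := h1
      _ = _ := by ring
  rw [hM1] at wN1 wX1
  have wN0' := wN0.trans hM0
  have wX0' := wX0.trans hM0
  -- the families
  obtain ⟨𝒬N, hq0, hq1⟩ : ∃ 𝒬N : ℕ → Finset (Part (Fin (6 * n)) × Fin (6 * n)), 𝒬N 0 = NN0 ∧ 𝒬N 1 = NN1 :=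
    ⟨fun c => if c = 0 then NN0 else NN1, if_pos rfl, if_neg one_ne_zero⟩
  obtain ⟨𝒬X, hx0, hx1⟩ : ∃ 𝒬X : ℕ → Finset (Part (Fin (6 * n)) × Fin (6 * n)), 𝒬X 0 = XX0 ∧ 𝒬X 1 = XX1 :=
    ⟨fun c => if c = 0 then XX0 else XX1, if_pos rfl, if_neg one_ne_zero⟩
  have hQN : ∀ c, c ≤ 1 → (∀ q ∈ 𝒬N c, (∃ F, Sc c q.1 F) ∧ q.2 ∈ q.1.B ∧ q.1.B.ncard ≤ b) ∧
      Ws x c0 (𝒬N c) ≤ K ^ 2 * C0 * b * (6 * n).factorial := by
    intro c hc
    rcases Nat.le_one_iff_eq_zero_or_eq_one.1 hc with rfl | rfl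
    · rw [hq0]
      exact ⟨hN0, wN0'⟩
    · rw [hq1]
      exact ⟨hN1, wN1⟩
  have hQX : ∀ c, c ≤ 1 → (∀ q ∈ 𝒬X c, (∃ F, Sc c q.1 F) ∧ q.2 ∈ q.1.B ∧ q.1.B.ncard ≤ b) ∧
      Ws x c0 (𝒬X c) ≤ K ^ 2 * C0 * b * (6 * n).factorial := by
    intro c hc
    rcases Nat.le_one_iff_eq_zero_or_eq_one.1 hc with rfl | rfl
    · rw [hx0]
      exact ⟨hX0, wX0'⟩
    · rw [hx1]
      exact ⟨hX1, wX1⟩
  refine ⟨fun c => ((𝒬X c).image Prod.fst).filter (fun X => D0 ≤ X.R.ncard),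
    fun c => ((𝒬N c).image Prod.fst).filter (fun X => X.B.ncard = b), 𝒬N, ?_, ?_⟩
  · intro c hc
    obtain ⟨n1, n2⟩ := hQN c hc
    obtain ⟨x1, x2⟩ := hQX c hc
    refine ⟨?_, n1, ?_, ?_, (mn_wt hx hc0 _).trans n2, ?_⟩
    · intro X hX
      obtain ⟨h1, -⟩ := Finset.mem_filter.1 hX
      obtain ⟨q, hq, rfl⟩ := Finset.mem_image.1 h1
      exact ⟨(x1 q hq).1, (x1 q hq).2.2⟩
    · intro Z hZ
      obtain ⟨h1, h2⟩ := Finset.mem_filter.1 hZ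
      obtain ⟨q, hq, rfl⟩ := Finset.mem_image.1 h1
      have h3 : q.1.B.ncard ≠ 0 := by omega
      exact ⟨(n1 q hq).1, (n1 q hq).2.2, (Set.nonempty_of_ncard_ne_zero h3).mono (Part.B_sub_R _)⟩
    · show ∑ X ∈ ((𝒬X c).image Prod.fst).filter (fun X => D0 ≤ X.R.ncard), Wt x X ≤ _
      refine (mn_img hx hc0 (𝒬X c) _ D0 (fun X h => h)).trans ?_
      calc Real.exp (-(c0 * D0)) * Ws x c0 (𝒬X c) ≤
            Real.exp (-(c0 * D0)) * (K ^ 2 * C0 * b * (6 * n).factorial) :=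
            mul_le_mul_of_nonneg_left x2 (Real.exp_pos _).le
        _ = _ := by ring
    · show ∑ X ∈ ((𝒬N c).image Prod.fst).filter (fun X => X.B.ncard = b), Wt x X ≤ _
      refine (mn_img hx hc0 (𝒬N c) _ b (fun X h => ?_)).trans ?_
      · rw [← h]
        exact Set.ncard_le_ncard (Part.B_sub_R X) (Set.toFinite _)
      · calc Real.exp (-(c0 * b)) * Ws x c0 (𝒬N c) ≤
            Real.exp (-(c0 * b)) * (K ^ 2 * C0 * b * (6 * n).factorial) :=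
            mul_le_mul_of_nonneg_left n2 (Real.exp_pos _).le
          _ = _ := by ring
  · intro T hT t hD
    obtain ⟨S, t1, t2, h0, h1, h2, h01, h12, h20, hS, hle, hcn⟩ := mn_face hT.1 t
    have hmem : (S, t) ∈ S0 n := mem_S0.2 ⟨t1, t2, h0, h1, h2, h01, h12, h20, hS⟩
    obtain ⟨s1, s2, s3, s4, s5⟩ := s0_sc hn hmem
    obtain ⟨l, P, hl, hTyp, -⟩ := sc_typ s1 s2
    have s3' : S.B.ncard ≤ b := by
      have : S.B.ncard = 3 := s3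
      omega
    obtain ⟨w, Y, y, hw, hr, hYT, hYc, hYb, hYf, hcase⟩ :=
      go (g := g) hTyp ⟨hT, hle⟩ hcn (Or.inl (by omega)) s5 s3'
    have hYN : (Y, y) ∈ NN0 := mem_NN.2 ⟨(S, t), hmem, w, hw, hr, hYb⟩
    obtain ⟨⟨F1, hYS0⟩, hyB0, -⟩ := hN0 _ hYN
    have hYS : Sc 0 Y F1 := hYS0
    have hyB : y ∈ Y.B := hyB0
    rcases hcase with hB | ⟨k, a, X, z, hst, hX, hXc, hXb⟩ | ⟨u, v, hns⟩ | hsep | hmrg
    · refine ⟨0, Nat.zero_le _, Or.inr (Or.inr ⟨Y, ?_, hYT, hYc⟩)⟩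
      show Y ∈ ((𝒬N 0).image Prod.fst).filter (fun X => X.B.ncard = b)
      rw [hq0]
      exact Finset.mem_filter.2 ⟨Finset.mem_image.2 ⟨(Y, y), hYN, rfl⟩, hB⟩
    · obtain ⟨m1, m2⟩ := mn_mx (b := b) hmem hw hr hYf hst hX hXb hD
      refine ⟨0, Nat.zero_le _, Or.inl ⟨X, ?_, hX, hXc, m2⟩⟩
      show X ∈ ((𝒬X 0).image Prod.fst).filter (fun X => D0 ≤ X.R.ncard)
      rw [hx0]
      exact m1
    · obtain ⟨z, v', rfl⟩ := List.exists_cons_of_ne_nil hns.2.1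
      have hGq : (gl Y y (T.a y), z) ∈ G := mem_GS.2 ⟨(Y, y), hYN, T, u, v', hYT, hns, rfl⟩
      obtain ⟨g1, g2, g3, g4, -⟩ := gl_sc hYS hYT hns
      have hzB : z ∈ (gl Y y (T.a y)).B := (hGm _ hGq).2
      have hgf := fan_gl hYf hYT hns
      obtain ⟨l1, P1, hl1, hTyp1, -⟩ := sc_typ g1 hzB
      have hl1' : l1 ≠ [] := by
        rintro rfl
        simp at hl1
      have hb1' : (gl Y y (T.a y)).B.ncard ≤ b := by
        have h3 : Y.B.ncard ≤ b := hYb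
        omega
      obtain ⟨w1, Y1, y1, hw1, hr1, hYT1, hYc1, hYb1, hYf1, hcase1⟩ :=
        go (g := g) hTyp1 ⟨hT, g3⟩ g4 (Or.inr hl1') hgf hb1'
      have hYN1 : (Y1, y1) ∈ NN1 := mem_NN.2 ⟨(gl Y y (T.a y), z), hGq, w1, hw1, hr1, hYb1⟩
      have hterm : Tm 1 T Y1 y1 → ∃ c, c ≤ 1 ∧
        ((∃ X ∈ ((𝒬X c).image Prod.fst).filter (fun X => D0 ≤ X.R.ncard), X.Le T ∧ X.HConn T ∧ t ∈ X.R) ∨
          (∃ q ∈ 𝒬N c, q.1.Le T ∧ q.1.HConn T ∧ Tm c T q.1 q.2) ∨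
          ∃ Z ∈ ((𝒬N c).image Prod.fst).filter (fun X => X.B.ncard = b), Z.Le T ∧ Z.HConn T) := by
        intro htm
        refine ⟨1, le_rfl, Or.inr (Or.inl ⟨(Y1, y1), ?_, hYT1, hYc1, htm⟩)⟩
        rw [hq1]
        exact hYN1
      rcases hcase1 with hB | ⟨k, a, X, z1, hst, hX, hXc, hXb⟩ | hns1 | hsep1 | hmrg1
      · refine ⟨1, le_rfl, Or.inr (Or.inr ⟨Y1, ?_, hYT1, hYc1⟩)⟩
        show Y1 ∈ ((𝒬N 1).image Prod.fst).filter (fun X => X.B.ncard = b)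
        rw [hq1]
        exact Finset.mem_filter.2 ⟨Finset.mem_image.2 ⟨(Y1, y1), hYN1, rfl⟩, hB⟩
      · obtain ⟨m1, m2⟩ := mn_mx (b := b) hGq hw1 hr1 hYf1 hst hX hXb hD
        refine ⟨1, le_rfl, Or.inl ⟨X, ?_, hX, hXc, m2⟩⟩
        show X ∈ ((𝒬X 1).image Prod.fst).filter (fun X => D0 ≤ X.R.ncard)
        rw [hx1]
        exact m1
      · exact hterm (Or.inr ⟨rfl, Or.inl hns1⟩)
      · exact hterm (Or.inl hsep1)
      · exact hterm (Or.inr ⟨rfl, Or.inr hmrg1⟩)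
    · refine ⟨0, Nat.zero_le _, Or.inr (Or.inl ⟨(Y, y), ?_, hYT, hYc, Or.inl hsep⟩)⟩
      rw [hq0]
      exact hYN
    · exfalso
      obtain ⟨l2, P2, hl2, hTyp2, -⟩ := sc_typ hYS hyB
      have hl2' : l2 = [] := List.length_eq_zero_iff.1 hl2
      subst hl2'
      obtain ⟨e, he, hsc⟩ := hTyp2.hl.2.2 _ hmrg.1
      rw [List.mem_singleton] at he
      subst he
      exact hmrg.2 hsc

end SYS.ST
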