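import Pool.Agent.SYS.CH.GlN
import Pool.Agent.SYS.CH.NodC
import Pool.Agent.SYS.Reg.TreeU

/-!
# Project SYS (MP_650813_pr, S*), block ST: exploration of the star of a vertex as a start of chains (definitions).  DO NOT CHANGE.

The exploration starts with the face of a dart `t`; the gate is always the boundary dart at the vertex of `t` (the end of the fan `t, s t, s² t, ..`):
after a step `T` or `R k a` it is the returned dart, and a step `L k a` completes the vertex.  `SO w`: only steps `T`, `R`; `SC w`: `SO` and one last step `L`.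
`NN b 𝒮`, `XX b 𝒮`: nodes and ends with at most `b` boundary darts, started at the members of `𝒮`.  `GS 𝒩`: regions after a first gluing inside the
hole at a node of `𝒩`, with the next gate.  `S0 n`: single faces.
-/

namespace SYS.ST

open Classical SST SYS.Num SYS.CH

/-- The gate is the returned dart. -/
def srg {D : Type} : List Stp → Part D → D → D := fun _ _ z => z

theorem srg_rul {D : Type} [Finite D] : Part.Rul (srg (D := D)) := fun _ _ _ hz => ⟨hz, Equiv.Perm.SameCycle.refl _ _⟩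

/-- Open words. -/
def SO (w : List Stp) : Prop := ∀ s ∈ w, ∀ k a, s ≠ .L k a

/-- Closed words. -/
def SC (w : List Stp) : Prop := ∃ u k a, w = u ++ [.L k a] ∧ SO u

section
variable {D : Type} [Finite D]

/-- `y` is the end of the fan of `t`. -/
def Fan (Y : Part D) (t y : D) : Prop := t ∈ Y.R ∧ y ∈ Y.B ∧ ∃ i : ℕ, y = (Y.s ^ i) t ∧ ∀ j < i, (Y.s ^ j) t ∉ Y.B

/-- Run from `S`, `x`. -/
def Run (S : Part D) (x : D) (w : List Stp) (Y : Part D) (y : D) : Prop := Part.RchG srg [] S x w Y y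

end

variable {n : ℕ}

/-- Nodes. -/
noncomputable def NN (b : ℕ) (𝒮 : Finset (Part (Fin (6 * n)) × Fin (6 * n))) : Finset (Part (Fin (6 * n)) × Fin (6 * n)) :=
  (Set.toFinite {q | ∃ s ∈ 𝒮, ∃ w, SO w ∧ Run s.1 s.2 w q.1 q.2 ∧ q.1.B.ncard ≤ b}).toFinset

/-- Ends. -/
noncomputable def XX (b : ℕ) (𝒮 : Finset (Part (Fin (6 * n)) × Fin (6 * n))) : Finset (Part (Fin (6 * n)) × Fin (6 * n)) :=
  (Set.toFinite {q | ∃ s ∈ 𝒮, ∃ w, SC w ∧ Run s.1 s.2 w q.1 q.2 ∧ q.1.B.ncard ≤ b}).toFinset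

/-- First gluing inside the hole, the next gate. -/
noncomputable def GS (𝒩 : Finset (Part (Fin (6 * n)) × Fin (6 * n))) : Finset (Part (Fin (6 * n)) × Fin (6 * n)) :=
  (Set.toFinite {q | ∃ s ∈ 𝒩, ∃ (T : Tri (Fin (6 * n))) (u v : List (Fin (6 * n))), s.1.Le T ∧ s.1.NSt T s.2 u (q.2 :: v) ∧
    q.1 = gl s.1 s.2 (T.a s.2)}).toFinset

/-- Single faces. -/
noncomputable def S0 (n : ℕ) : Finset (Part (Fin (6 * n)) × Fin (6 * n)) :=
  (Set.toFinite {q | ∃ (t1 t2 : Fin (6 * n)) (h0 : q.2 ∉ (Part.emp : Part (Fin (6 * n))).R) (h1 : t1 ∉ (Part.emp : Part (Fin (6 * n))).R)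
    (h2 : t2 ∉ (Part.emp : Part (Fin (6 * n))).R) (h01 : q.2 ≠ t1) (h12 : t1 ≠ t2) (h20 : t2 ≠ q.2),
    q.1 = Part.emp.newTri q.2 t1 t2 h0 h1 h2 h01 h12 h20}).toFinset

theorem mem_NN {b : ℕ} {𝒮 : Finset (Part (Fin (6 * n)) × Fin (6 * n))} {q : Part (Fin (6 * n)) × Fin (6 * n)} :
    q ∈ NN b 𝒮 ↔ ∃ s ∈ 𝒮, ∃ w, SO w ∧ Run s.1 s.2 w q.1 q.2 ∧ q.1.B.ncard ≤ b := by simp [NN]

theorem mem_XX {b : ℕ} {𝒮 : Finset (Part (Fin (6 * n)) × Fin (6 * n))} {q : Part (Fin (6 * n)) × Fin (6 * n)} :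
    q ∈ XX b 𝒮 ↔ ∃ s ∈ 𝒮, ∃ w, SC w ∧ Run s.1 s.2 w q.1 q.2 ∧ q.1.B.ncard ≤ b := by simp [XX]

theorem mem_GS {𝒩 : Finset (Part (Fin (6 * n)) × Fin (6 * n))} {q : Part (Fin (6 * n)) × Fin (6 * n)} :
    q ∈ GS 𝒩 ↔ ∃ s ∈ 𝒩, ∃ (T : Tri (Fin (6 * n))) (u v : List (Fin (6 * n))), s.1.Le T ∧ s.1.NSt T s.2 u (q.2 :: v) ∧
      q.1 = gl s.1 s.2 (T.a s.2) := by simp [GS]

theorem mem_S0 {q : Part (Fin (6 * n)) × Fin (6 * n)} : q ∈ S0 n ↔
    ∃ (t1 t2 : Fin (6 * n)) (h0 : q.2 ∉ (Part.emp : Part (Fin (6 * n))).R) (h1 : t1 ∉ (Part.emp : Part (Fin (6 * n))).R)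
    (h2 : t2 ∉ (Part.emp : Part (Fin (6 * n))).R) (h01 : q.2 ≠ t1) (h12 : t1 ≠ t2) (h20 : t2 ≠ q.2),
    q.1 = Part.emp.newTri q.2 t1 t2 h0 h1 h2 h01 h12 h20 := by simp [S0]

/-- Weight of a set of regions, with an exponential factor for the volume. -/
noncomputable def Ws (x c : ℝ) (𝒮 : Finset (Part (Fin (6 * n)) × Fin (6 * n))) : ℝ :=
  ∑ q ∈ 𝒮, Wt x q.1 * Real.exp (c * q.1.R.ncard)

end SYS.ST
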