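import Pool.Agent.SYS.ST.Defs

/-!
# SYSS-ST-Fan: the fan of `t` in one step

`Y.s = Y.f * Y.a`; for a boundary dart `y` of the fan: `y = (Y.s ^ i) t`.  The permutations `Y.s` and `Y'.s`
agree on the revealed darts which are not on the boundary (`Sub`), so the fan of `t` in `Y'` is the fan
in `Y` followed by the darts after `y`.
-/

namespace SYS.ST

open Classical SST SYS.Num SYS.CH

variable {D : Type} [Finite D] {Y Y' : Part D} {t y z : D} {k a : ℕ}

omit [Finite D] in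
private theorem sub_s (h : Y.Sub Y') {d : D} (hd : d ∈ Y.R) (hb : d ∉ Y.B) :
    Y'.s d = Y.s d ∧ d ∉ Y'.B := by
  have h1 : Y.a d ≠ d := fun h' => hb ⟨hd, h'⟩
  have h2 : Y'.a d = Y.a d := h.2 d h1
  refine ⟨?_, ?_⟩
  · rw [Part.s_apply, Part.s_apply, h2]
    exact h.1 _ ((Part.mem_R_a Y d).2 hd)
  · intro h3
    exact h1 (h2.symm.trans h3.2)

omit [Finite D] in
private theorem pow_R {z : D} (hz : z ∈ Y.R) (i : ℕ) : (Y.s ^ i) z ∈ Y.R := by
  induction i with
  | zero => exact hz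
  | succ i ih =>
    rw [pow_succ', Equiv.Perm.mul_apply]
    exact (Part.mem_R_s Y _).2 ih

omit [Finite D] in
/-- the orbits agree as long as they do not meet the boundary -/
private theorem pow_eq (h : Y.Sub Y') {d d' : D} (hd : d' ∈ Y.R) {i : ℕ}
    (h0 : Y'.s d = Y.s d') (hb : ∀ j < i, (Y.s ^ (j + 1)) d' ∉ Y.B) :
    ∀ j ≤ i, (Y'.s ^ (j + 1)) d = (Y.s ^ (j + 1)) d' := by
  intro j
  induction j with
  | zero =>
    intro _
    rw [zero_add, pow_one, pow_one, h0]
  | succ j ih =>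
    intro hj
    rw [pow_succ' Y'.s (j + 1), Equiv.Perm.mul_apply, ih (by omega), pow_succ' Y.s (j + 1),
      Equiv.Perm.mul_apply]
    exact (sub_s h (pow_R hd _) (hb j (by omega))).1

omit [Finite D] in
private theorem fan_pow (h : Y.Sub Y') (ht : t ∈ Y.R) {i : ℕ} (hb : ∀ j < i, (Y.s ^ j) t ∉ Y.B) :
    ∀ j ≤ i, (Y'.s ^ j) t = (Y.s ^ j) t := by
  intro j
  induction j with
  | zero => exact fun _ => rfl
  | succ j ih =>
    intro hj
    rw [pow_succ', Equiv.Perm.mul_apply, ih (by omega), pow_succ', Equiv.Perm.mul_apply]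
    exact (sub_s h (pow_R ht j) (hb j (by omega))).1

omit [Finite D] in
private theorem fan_tr (hf : Fan Y t y) (h : Y.Sub Y') {m : ℕ} (hz : z = (Y'.s ^ m) y)
    (hzB : z ∈ Y'.B) (hm : ∀ j < m, (Y'.s ^ j) y ∉ Y'.B) : Fan Y' t z := by
  obtain ⟨ht, hy, i, hi, hb⟩ := hf
  have hp := fan_pow h ht hb
  refine ⟨h.R_sub ht, hzB, m + i, ?_, fun j hj => ?_⟩
  · rw [pow_add, Equiv.Perm.mul_apply, hp i le_rfl, ← hi]
    exact hz
  · by_cases hji : j < i
    · rw [hp j hji.le]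
      exact (sub_s h (pow_R ht j) (hb j hji)).2
    · obtain ⟨l, rfl⟩ : ∃ l, j = l + i := ⟨j - i, by omega⟩
      rw [pow_add, Equiv.Perm.mul_apply, hp i le_rfl, ← hi]
      exact hm l (by omega)

omit [Finite D] in
private theorem same_fan (hf : Fan Y t y) (h : Y.Sub Y') : Y'.s.SameCycle t y := by
  obtain ⟨ht, hy, i, hi, hb⟩ := hf
  refine ⟨(i : ℤ), ?_⟩
  rw [zpow_natCast, fan_pow h ht hb i le_rfl, hi]

private theorem ret_nx (hx : y ∈ Y.B) : ∃ j : ℕ, Y.nx y = (Y.s ^ (j + 1)) y ∧ Y.nx y ∈ Y.B ∧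
    ∀ i < j, (Y.s ^ (i + 1)) y ∉ Y.B := ret_spec Y.s hx

/-- gluing `y` to `y'` continues the fan to the next boundary dart after `y'` -/
private theorem fan_glue (hf : Fan Y t y) {y' : D} {u v : List D} (hy : y ∈ Y.B) (hy' : y' ∈ Y.B)
    (hw : Y.hw y = y :: (u ++ y' :: z :: v)) : Fan (Y.glue y y' hy hy') t z := by
  have hn := Y.hw_nodup hy
  have hc := Y.hw_chain hy
  rw [hw] at hn hc
  have hyy' : y ≠ y' := by
    rintro rfl
    exact (List.nodup_cons.1 hn).1 (List.mem_append.2 (Or.inr List.mem_cons_self))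
  have hyz : z ≠ y := by
    rintro rfl
    exact (List.nodup_cons.1 hn).1 (List.mem_append.2 (Or.inr (List.mem_cons_of_mem _ List.mem_cons_self)))
  have hyz' : z ≠ y' := by
    rintro rfl
    have h1 := (List.nodup_append.1 (List.nodup_cons.1 hn).2).2.1
    exact (List.nodup_cons.1 h1).1 List.mem_cons_self
  have hnx : Y.nx y' = z := by
    have h1 : List.IsChain (fun d e => Y.nx d = e) (y' :: z :: v) := by
      have h2 : y :: (u ++ y' :: z :: v) = (y :: u) ++ (y' :: z :: v) := rfl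
      rw [h2] at hc
      exact hc.right_of_append
    exact (List.isChain_cons_cons.1 h1).1
  obtain ⟨j0, hj1, hj2, hj3⟩ := ret_nx hy'
  rw [hnx] at hj1 hj2
  have hsub := Part.glue_sub Y hy hy'
  have h0 : (Y.glue y y' hy hy').s y = Y.s y' := by
    rw [Part.glue_s, Equiv.Perm.mul_apply, Equiv.swap_apply_left]
  have hp := pow_eq hsub hy'.1 h0 hj3
  have hB := Part.glue_B Y hy hy' hyy'
  refine fan_tr (m := j0 + 1) hf hsub ?_ ?_ ?_
  · rw [hp j0 le_rfl]
    exact hj1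
  · rw [hB]
    refine ⟨hj2, ?_⟩
    rintro (h | h)
    · exact hyz h
    · exact hyz' h
  · intro j hj
    rcases Nat.eq_zero_or_pos j with rfl | hj0
    · rw [pow_zero, Equiv.Perm.one_apply, hB]
      exact fun h => h.2 (Or.inl rfl)
    · obtain ⟨i, rfl⟩ : ∃ i, j = i + 1 := ⟨j - 1, by omega⟩
      rw [hp i (by omega)]
      exact (sub_s hsub (pow_R hy'.1 _) (hj3 i (by omega))).2

theorem fan_T (hf : Fan Y t y) (h : Y.St y .T Y' z) : Fan Y' t z := by
  obtain ⟨t0, t1, t2, hx, h0, h1, h2, h01, h12, h20, rfl, rfl⟩ := h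
  refine fan_tr (m := 1) hf (Part.face_sub Y hx h0 h1 h2 h01 h12 h20) ?_ ?_ ?_
  · rw [pow_one, Part.face_s_x]
  · rw [Part.face_B]
    exact Or.inr (Or.inl rfl)
  · intro j hj
    obtain rfl : j = 0 := by omega
    rw [pow_zero, Equiv.Perm.one_apply, Part.face_B]
    rintro (h | h | h)
    · exact h.2 rfl
    · rw [h] at hx
      exact h1 hx.1
    · rw [h] at hx
      exact h2 hx.1

theorem fan_R (hf : Fan Y t y) (h : Y.St y (.R k a) Y' z) : Fan Y' t z := by
  obtain ⟨y', u, v, w, hx, hy, hw, hk, rfl, hd⟩ := h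
  have hn := Y.hw_nodup hx
  rw [hw] at hn
  have hzu : z ∉ u := by
    intro hz
    have h1 := (List.nodup_append.1 (List.nodup_cons.1 hn).2).2.2
    exact h1 z hz z (List.mem_cons_of_mem _ List.mem_cons_self) rfl
  have h1 := fan_glue hf hx hy hw
  rcases hd with ⟨_, _, rfl⟩ | ⟨_, V, _, hd⟩
  · exact h1
  · refine fan_tr (m := 0) h1 hd.sub rfl ?_ (fun j hj => by omega)
    rw [hd.B]
    exact ⟨h1.2.1, hzu⟩

theorem fan_gl {T : Tri D} {u v : List D} (hf : Fan Y t y) (hT : Y.Le T) (h : Y.NSt T y u (z :: v)) : Fan (gl Y y (T.a y)) t z := by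
  have _ := hT
  obtain ⟨_, _, hw, hx, hy, _⟩ := h
  unfold gl
  rw [dif_pos ⟨hx, hy⟩]
  exact fan_glue hf hx hy hw

theorem fan_L (hf : Fan Y t y) (h : Y.St y (.L k a) Y' z) : t ∈ Y'.R ∧ ∀ e ∈ Y'.B, ¬ Y'.s.SameCycle t e := by
  obtain ⟨y', u, v, w, hx, hy, hw, hk, hu, hd⟩ := h
  have hn := Y.hw_nodup hx
  rw [hw] at hn
  have hyy' : y ≠ y' := by
    rintro rfl
    exact (List.nodup_cons.1 hn).1 (List.mem_append.2 (Or.inr List.mem_cons_self))
  have hsub := Part.glue_sub Y hx hy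
  have hB := Part.glue_B Y hx hy hyy'
  rcases v with _ | ⟨z', v⟩
  · -- nothing is swallowed
    obtain rfl : Y' = Y.glue y y' hx hy := by
      rcases hd with ⟨_, _, h⟩ | ⟨h, _⟩
      · exact h
      · exact absurd rfl h
    refine ⟨hsub.R_sub hf.1, ?_⟩
    have hrot : Y.hw y' = y' :: ([] ++ (y :: u)) := by
      refine Part.hw_rot Y hx (u := y :: u) (v := []) ?_
      rw [hw]
      rfl
    have hc := Y.hw_chain hy
    rw [hrot, List.nil_append] at hc
    have hnx : Y.nx y' = y := (List.isChain_cons_cons.1 hc).1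
    obtain ⟨j0, hj1, hj2, hj3⟩ := ret_nx hy
    rw [hnx] at hj1 hj2
    have h0 : (Y.glue y y' hx hy).s y = Y.s y' := by
      rw [Part.glue_s, Equiv.Perm.mul_apply, Equiv.swap_apply_left]
    have hp := pow_eq hsub hy.1 h0 hj3
    have hcyc : ((Y.glue y y' hx hy).s ^ (j0 + 1)) y = y := by
      rw [hp j0 le_rfl]
      exact hj1.symm
    intro e he hse
    have h1 := (same_fan hf hsub).symm.trans hse
    obtain ⟨n, _, hn'⟩ := h1.exists_pow_eq'
    have hred : ∀ q r : ℕ, ((Y.glue y y' hx hy).s ^ (q * (j0 + 1) + r)) y =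
        ((Y.glue y y' hx hy).s ^ r) y := by
      intro q r
      induction q with
      | zero => rw [zero_mul, zero_add]
      | succ q ih =>
        have h2 : (q + 1) * (j0 + 1) + r = (q * (j0 + 1) + r) + (j0 + 1) := by ring
        rw [h2, pow_add, Equiv.Perm.mul_apply, hcyc, ih]
    have h3 := hred (n / (j0 + 1)) (n % (j0 + 1))
    rw [Nat.div_add_mod'] at h3
    rw [h3] at hn'
    have h4 : n % (j0 + 1) < j0 + 1 := Nat.mod_lt _ (by omega)
    rw [← hn'] at he
    rcases Nat.eq_zero_or_pos (n % (j0 + 1)) with h5 | h5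
    · rw [h5, pow_zero, Equiv.Perm.one_apply, hB] at he
      exact he.2 (Or.inl rfl)
    · obtain ⟨i, hi⟩ : ∃ i, n % (j0 + 1) = i + 1 := ⟨n % (j0 + 1) - 1, by omega⟩
      rw [hi, hp i (by omega)] at he
      exact (sub_s hsub (pow_R hy.1 _) (hj3 i (by omega))).2 he
  · have h1 := fan_glue hf hx hy hw
    have hwz := Part.hw_glue_split_right Y hx hy hw rfl
    have hzB : z' ∈ (Y.glue y y' hx hy).B := h1.2.1
    have hH : (Y.glue y y' hx hy).HUn {d | d ∈ z' :: v} := by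
      refine ⟨fun d hd => ?_, fun d hd e he hde => ?_⟩
      · have h2 : d ∈ z' :: v := hd
        rw [← hwz, Part.mem_hw _ hzB] at h2
        exact h2.1
      · have h2 : d ∈ z' :: v := hd
        rw [← hwz, Part.mem_hw _ hzB] at h2
        change e ∈ z' :: v
        rw [← hwz, Part.mem_hw _ hzB]
        exact ⟨he, h2.2.trans hde⟩
    rcases hd with ⟨h, _⟩ | ⟨_, V, _, hd⟩
    · exact absurd h (List.cons_ne_nil _ _)
    · refine ⟨(hsub.R_sub.trans hd.sub.R_sub) hf.1, ?_⟩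
      intro e he hse
      rw [hd.B] at he
      have h3 := Part.fil_same hH hd (d := e) (e := t) he.1.1
        (fun z1 hz1 hc => he.2 (hH.2 z1 hz1 e he.1 hc.symm))
      have h4 := h3.1 hse.symm
      have h5 := same_fan h1 (Part.sub_refl _)
      exact he.2 (hH.2 z' List.mem_cons_self e he.1 ((h4.trans h5).symm))

theorem deg_le {T : Tri D} (hT : Y.Le T) (ht : t ∈ Y.R) (h : ∀ e ∈ Y.B, ¬ Y.s.SameCycle t e) : T.deg t ≤ Y.R.ncard := by
  have hb : ∀ j : ℕ, (Y.s ^ j) t ∉ Y.B := fun j hj => h _ hj ⟨(j : ℤ), by rw [zpow_natCast]⟩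
  have hp : ∀ j : ℕ, (T.s ^ j) t = (Y.s ^ j) t := by
    intro j
    induction j with
    | zero => rfl
    | succ j ih =>
      rw [pow_succ', Equiv.Perm.mul_apply, ih, pow_succ', Equiv.Perm.mul_apply]
      exact Part.le_s hT (pow_R ht j) (hb j)
  unfold Tri.deg
  refine Set.ncard_le_ncard ?_ (Set.toFinite _)
  intro e he
  have h1 : T.s.SameCycle e t := Quotient.exact he
  obtain ⟨n, _, hn⟩ := h1.symm.exists_pow_eq'
  rw [← hn, hp]
  exact pow_R ht n

end SYS.ST
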