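import Pool.Agent.SYS.ST.Fan

/-!
# SYSS-ST-Go: the exploration of the star in a triangulation

PROOF. Strong induction on `2 * F + S.B.ncard` (all `S`, `x`, `p`, `P`). If `S.B.ncard = b`: `w = []`. Otherwise `Part.alt` at the gate `x` (`hS`, `T ∈ S.Ext g`, `hc`, `ho`): `NSt`, `Sep`, `Mrg`: `w = []`. `Stt T x s`: `S.St x s S₁ z`, `S₁.Le T`, `S₁.HConn T`. `s = L k a`: `w = []`, third alternative. `s = T` or `R k a`: `st_typ`: `S₁.Typ (z :: l) (s.nx p :: P) F'`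
with `F' + s.vol = F`; `typ_B`: `|S₁.B| = |S.B| + 1` for `T`, `|S₁.B| + k + 2 = |S.B|` for `R k a`; the measure decreases, `|S₁.B| ≤ b`; `fan_T`, `fan_R`; induction hypothesis for `S₁`, `z` (rule `srg`: the history is irrelevant: prove `Run` from `RchG srg h` for all `h`, `rchg` with `srg` does not use `h`).
-/

namespace SYS.ST

open Classical SST SYS.Num SYS.CH

variable {n g : ℕ}

private theorem go_hist {D : Type} [Finite D] {w : List Stp} : ∀ {h h' : List Stp} {S Y : Part D} {x y : D},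
    Part.RchG srg h S x w Y y → Part.RchG srg h' S x w Y y := by
  induction w with
  | nil => intro h h' S Y x y hr; exact hr
  | cons s w ih =>
    rintro h h' S Y x y ⟨S₁, z, h1, h2⟩
    exact ⟨S₁, z, h1, ih h2⟩

private theorem go_cons {D : Type} [Finite D] {w : List Stp} {s : Stp} {S S₁ Y : Part D} {x y z : D}
    (h : S.St x s S₁ z) (hr : Run S₁ z w Y y) : Run S x (s :: w) Y y :=
  ⟨S₁, z, h, go_hist hr⟩

private theorem go_so {w : List Stp} {s : Stp} (hs : ∀ k a, s ≠ .L k a) (hw : SO w) : SO (s :: w) := by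
  intro s' hs'
  rcases List.mem_cons.1 hs' with h | h
  · rw [h]
    exact hs
  · exact hw s' h

private theorem go_aux (m : ℕ) : ∀ {T : Tri (Fin (6 * n))} {S : Part (Fin (6 * n))} {x t : Fin (6 * n)} {l : List (Fin (6 * n))}
    {p F κ b : ℕ} {P : List ℕ}, 2 * F + S.B.ncard = m →
    (hS : S.Typ (x :: l) (p :: P) F κ) → (hT : T ∈ S.Ext g) → (hc : S.HConn T) → (ho : κ < g ∨ l ≠ []) → (hf : Fan S t x) →
    (hb : S.B.ncard ≤ b) →
    ∃ w Y y, SO w ∧ Run S x w Y y ∧ Y.Le T ∧ Y.HConn T ∧ Y.B.ncard ≤ b ∧ Fan Y t y ∧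
      (Y.B.ncard = b ∨ (∃ k a X z, Y.St y (.L k a) X z ∧ X.Le T ∧ X.HConn T ∧ X.B.ncard ≤ b) ∨ (∃ u v, Y.NSt T y u v) ∨
        (∃ u v, Y.Sep T y u v) ∨ Y.Mrg T y) := by
  induction m using Nat.strong_induction_on with
  | _ m ih =>
    intro T S x t l p F κ b P hm hS hT hc ho hf hb
    have hnil : SO ([] : List Stp) := fun s hs => absurd hs List.not_mem_nil
    have hrn : Run S x [] S x := ⟨rfl, rfl⟩
    by_cases hbe : S.B.ncard = b
    · exact ⟨[], S, x, hnil, hrn, hT.2, hc, hb, hf, Or.inl hbe⟩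
    rcases Part.alt hS hT hc ho with ⟨s, S₁, z, hst, hle, hc1⟩ | h | h | h
    · obtain ⟨hok, F', hF', hS1⟩ := Part.st_typ hS hst
      have hB0 := typ_B hS
      have hB1 := typ_B hS1
      rw [List.sum_cons] at hB0 hB1
      cases s with
      | T =>
        have hnx : (Stp.T).nx p = p + 1 := rfl
        have hvol : (Stp.T).vol = 1 := rfl
        rw [hnx] at hB1
        rw [hvol] at hF'
        obtain ⟨w, Y, y, h1, h2, h3⟩ := ih (2 * F' + S₁.B.ncard) (by omega) rfl hS1 ⟨hT.1, hle⟩ hc1 ho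
          (fan_T hf hst) (b := b) (by omega)
        exact ⟨.T :: w, Y, y, go_so (fun k a h => by cases h) h1, go_cons hst h2, h3⟩
      | R k a =>
        have hnx : (Stp.R k a).nx p = p - (k + 2) := rfl
        have hvol : (Stp.R k a).vol = a := rfl
        have hok' : k + 3 ≤ p := hok
        rw [hnx] at hB1
        rw [hvol] at hF'
        obtain ⟨w, Y, y, h1, h2, h3⟩ := ih (2 * F' + S₁.B.ncard) (by omega) rfl hS1 ⟨hT.1, hle⟩ hc1 ho
          (fan_R hf hst) (b := b) (by omega)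
        exact ⟨.R k a :: w, Y, y, go_so (fun k' a' h => by cases h) h1, go_cons hst h2, h3⟩
      | L k a =>
        have hnx : (Stp.L k a).nx p = p - (k + 2) := rfl
        have hok' : k + 3 ≤ p := hok
        rw [hnx] at hB1
        exact ⟨[], S, x, hnil, hrn, hT.2, hc, hb, hf, Or.inr (Or.inl ⟨k, a, S₁, z, hst, hle, hc1, by omega⟩)⟩
    · exact ⟨[], S, x, hnil, hrn, hT.2, hc, hb, hf, Or.inr (Or.inr (Or.inl h))⟩
    · exact ⟨[], S, x, hnil, hrn, hT.2, hc, hb, hf, Or.inr (Or.inr (Or.inr (Or.inl h)))⟩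
    · exact ⟨[], S, x, hnil, hrn, hT.2, hc, hb, hf, Or.inr (Or.inr (Or.inr (Or.inr h)))⟩

theorem go {T : Tri (Fin (6 * n))} {S : Part (Fin (6 * n))} {x t : Fin (6 * n)} {l : List (Fin (6 * n))} {p F κ b : ℕ} {P : List ℕ}
    (hS : S.Typ (x :: l) (p :: P) F κ) (hT : T ∈ S.Ext g) (hc : S.HConn T) (ho : κ < g ∨ l ≠ []) (hf : Fan S t x) (hb : S.B.ncard ≤ b) :
    ∃ w Y y, SO w ∧ Run S x w Y y ∧ Y.Le T ∧ Y.HConn T ∧ Y.B.ncard ≤ b ∧ Fan Y t y ∧
      (Y.B.ncard = b ∨ (∃ k a X z, Y.St y (.L k a) X z ∧ X.Le T ∧ X.HConn T ∧ X.B.ncard ≤ b) ∨ (∃ u v, Y.NSt T y u v) ∨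
        (∃ u v, Y.Sep T y u v) ∨ Y.Mrg T y) :=
  go_aux _ rfl hS hT hc ho hf hb

end SYS.ST
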