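import Pool.Agent.SYS.ST.Defs
import Pool.Agent.SYS.PL.Gr

/-!
# SYSS-ST-Num: total weight of the words of a star, with an exponential factor for the volume

PROOF. `Λ = law hx` (`law_ww`: `Λ.ww w = PRW x w`, `law_w`). For `0 ≤ c ≤ Λ.e / 3` let `r c := Λ.A * exp (3 c) + ∑' z, Λ.q z.1 z.2 * exp (3 c * z.2)` (weight of a step `T` or `R k a` with the factor `exp (3 c vol)`; `vol T = 1`, `vol (R k a) = a`; summable by `Λ.hs`). `r 0 = A + (1 - A) / 2 < 1` (`mass`, `A < 1`: some `q` is positive, or `ha`), `r` is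
continuous from the right at `0` (e.g. `exp (3 c a) ≤ 1 + (3 c / e) * exp (e a)` for `3 c ≤ e`: `exp (u) ≤ 1 + (u/v) (exp v - 1)` for `0 ≤ u ≤ v`, convexity), so `r c < 1` for some `c > 0`. For a finite set `𝒲` of words, all `SO` or `SC`: group by the length `m ≤ N` and use the finite set of the letters: the sum over the words of length `m` is at most
`r ^ m` (`SO`) resp. `r ^ (m - 1) * r` (`SC`: the last letter `L k a` has the same weights as `R k a`), so the total is at most `2 / (1 - r)`. (`Finset.sum_le_sum_of_subset_of_nonneg` into the set of all lists of length `m` over the letters; induction on `m`; `wwt`, `wvol` of a cons.)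
-/

namespace SYS.ST

open Classical SST SYS.Num SYS.CH

/-- Weight of a step with the exponential factor. -/
private noncomputable def gw (Λ : GR.Law) (c : ℝ) (s : Stp) : ℝ := s.wt Λ.A Λ.q * Real.exp (3 * c * s.vol)

private theorem gw_nonneg (Λ : GR.Law) (c : ℝ) (s : Stp) : 0 ≤ gw Λ c s := by
  have hA : 0 ≤ Λ.A := le_of_lt (lt_trans (by norm_num) Λ.hA)
  unfold gw
  refine mul_nonneg ?_ (Real.exp_pos _).le
  cases s with
  | T => exact hA
  | L k a => exact Λ.hq k a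
  | R k a => exact Λ.hq k a

private noncomputable def gW (Λ : GR.Law) (c : ℝ) (w : List Stp) : ℝ := (w.map (gw Λ c)).prod

private theorem gW_nil (Λ : GR.Law) (c : ℝ) : gW Λ c [] = 1 := by simp [gW]

private theorem gW_cons (Λ : GR.Law) (c : ℝ) (s : Stp) (w : List Stp) : gW Λ c (s :: w) = gw Λ c s * gW Λ c w := by simp [gW]

private theorem gW_append (Λ : GR.Law) (c : ℝ) (u w : List Stp) : gW Λ c (u ++ w) = gW Λ c u * gW Λ c w := by simp [gW]

private theorem gW_nonneg (Λ : GR.Law) (c : ℝ) (w : List Stp) : 0 ≤ gW Λ c w := by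
  induction w with
  | nil => rw [gW_nil]; exact zero_le_one
  | cons s w ih => rw [gW_cons]; exact mul_nonneg (gw_nonneg Λ c s) ih

private theorem gW_eq (Λ : GR.Law) (c : ℝ) (w : List Stp) : gW Λ c w = wwt Λ.A Λ.q w * Real.exp (c * (3 * wvol w)) := by
  induction w with
  | nil => simp [gW_nil, wwt_nil, wvol_nil]
  | cons s w ih =>
    rw [gW_cons, ih, wwt_cons, wvol_cons]
    unfold gw
    have h1 : Real.exp (c * (3 * ((s.vol + wvol w : ℕ) : ℝ))) = Real.exp (3 * c * s.vol) * Real.exp (c * (3 * wvol w)) := by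
      rw [← Real.exp_add]
      congr 1
      push_cast
      ring
    rw [h1]
    ring

/-- `exp u ≤ 1 + (u / v) exp v` for `0 ≤ u ≤ v`. -/
private theorem exp_cvx {t y : ℝ} (h0 : 0 ≤ t) (h1 : t ≤ 1) : Real.exp (t * y) ≤ 1 + t * Real.exp y := by
  have h := convexOn_exp.2 (Set.mem_univ (0 : ℝ)) (Set.mem_univ y) (sub_nonneg.2 h1) h0 (by ring)
  simp only [smul_eq_mul, mul_zero, zero_add, Real.exp_zero, mul_one] at h
  linarith

private theorem law_lt (Λ : GR.Law) : 0 < ∑' z : ℕ × ℕ, Λ.q z.1 z.2 ∧ Summable fun z : ℕ × ℕ => Λ.q z.1 z.2 := by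
  have hs : Summable fun z : ℕ × ℕ => Λ.q z.1 z.2 := by
    refine Summable.of_nonneg_of_le (fun z => Λ.hq z.1 z.2) (fun z => ?_) Λ.hs
    have h1 : (1 : ℝ) ≤ Real.exp (Λ.e * (z.1 + z.2)) :=
      Real.one_le_exp (mul_nonneg Λ.he.le (by positivity))
    have := mul_le_mul_of_nonneg_left h1 (Λ.hq z.1 z.2)
    linarith
  refine ⟨?_, hs⟩
  by_contra hn
  have h0 : ∑' z : ℕ × ℕ, Λ.q z.1 z.2 = 0 := le_antisymm (not_lt.1 hn) (tsum_nonneg fun z => Λ.hq z.1 z.2)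
  have h1 : ∀ z : ℕ × ℕ, Λ.q z.1 z.2 = 0 := by
    have := (hasSum_zero_iff_of_nonneg (fun z : ℕ × ℕ => Λ.hq z.1 z.2)).1 (h0 ▸ hs.hasSum)
    intro z
    exact congrFun this z
  have h2 := Λ.ha
  have h3 : (fun z : ℕ × ℕ => ((z.1 : ℝ) + 1) * Λ.q z.1 z.2) = fun _ => 0 := by
    funext z
    rw [h1 z, mul_zero]
  rw [h3, tsum_zero] at h2
  exact lt_irrefl _ h2

/-- The exponent. -/
private theorem ex_c (Λ : GR.Law) : ∃ c r : ℝ, 0 < c ∧ r < 1 ∧ (∀ Z : Finset (ℕ × ℕ), gw Λ c .T + ∑ z ∈ Z, gw Λ c (.R z.1 z.2) ≤ r) := by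
  obtain ⟨hQ, hqs⟩ := law_lt Λ
  have hA : 0 ≤ Λ.A := le_of_lt (lt_trans (by norm_num) Λ.hA)
  set Q := ∑' z : ℕ × ℕ, Λ.q z.1 z.2 with hQd
  set M := ∑' z : ℕ × ℕ, Λ.q z.1 z.2 * Real.exp (Λ.e * (z.1 + z.2)) with hM
  have hAQ : Λ.A + Q < 1 := by have := Λ.mass; linarith
  have hcont : Continuous fun c : ℝ => Λ.A * Real.exp (3 * c) + (Q + 3 * c / Λ.e * M) := by fun_prop
  have h0 : Λ.A * Real.exp (3 * (0 : ℝ)) + (Q + 3 * 0 / Λ.e * M) < 1 := by simpa using hAQ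
  have hev : ∀ᶠ c in nhds (0 : ℝ), Λ.A * Real.exp (3 * c) + (Q + 3 * c / Λ.e * M) < 1 :=
    hcont.continuousAt.eventually_lt_const h0
  obtain ⟨δ, hδ, hB⟩ := Metric.eventually_nhds_iff.1 hev
  set c := min (δ / 2) (Λ.e / 3) with hc
  have hc0 : 0 < c := lt_min (by linarith) (by have := Λ.he; linarith)
  have hc1 : c < δ := lt_of_le_of_lt (min_le_left _ _) (by linarith)
  have hc2 : c ≤ Λ.e / 3 := min_le_right _ _
  have hlt := hB (y := c) (by rw [Real.dist_eq, sub_zero, abs_of_pos hc0]; exact hc1)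
  refine ⟨c, _, hc0, hlt, fun Z => ?_⟩
  have hT : gw Λ c .T = Λ.A * Real.exp (3 * c) := by
    simp [gw, Stp.wt, Stp.vol]
  rw [hT]
  have ht0 : 0 ≤ 3 * c / Λ.e := div_nonneg (by linarith) Λ.he.le
  have ht1 : 3 * c / Λ.e ≤ 1 := by rw [div_le_one Λ.he]; linarith
  have hR : ∀ z : ℕ × ℕ, gw Λ c (.R z.1 z.2) ≤ Λ.q z.1 z.2 + 3 * c / Λ.e * (Λ.q z.1 z.2 * Real.exp (Λ.e * (z.1 + z.2))) := by
    intro z
    have he : Λ.e ≠ 0 := ne_of_gt Λ.he
    have h1 : Real.exp (3 * c * (z.2 : ℝ)) ≤ 1 + 3 * c / Λ.e * Real.exp (Λ.e * (z.1 + z.2)) := by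
      have h2 := exp_cvx (y := Λ.e * (z.1 + z.2)) ht0 ht1
      have h3 : 3 * c / Λ.e * (Λ.e * ((z.1 : ℝ) + z.2)) = 3 * c * (z.1 + z.2) := by
        field_simp
      rw [h3] at h2
      refine le_trans (Real.exp_le_exp.2 ?_) h2
      refine mul_le_mul_of_nonneg_left ?_ (by linarith)
      have : (0 : ℝ) ≤ z.1 := Nat.cast_nonneg _
      linarith
    have h4 := mul_le_mul_of_nonneg_left h1 (Λ.hq z.1 z.2)
    show Λ.q z.1 z.2 * Real.exp (3 * c * (z.2 : ℝ)) ≤ _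
    linarith
  have hS : ∑ z ∈ Z, gw Λ c (.R z.1 z.2) ≤ Q + 3 * c / Λ.e * M := by
    refine le_trans (Finset.sum_le_sum fun z _ => hR z) ?_
    rw [Finset.sum_add_distrib, ← Finset.mul_sum]
    refine add_le_add (hqs.sum_le_tsum Z fun z _ => Λ.hq z.1 z.2) (mul_le_mul_of_nonneg_left ?_ ht0)
    exact Λ.hs.sum_le_tsum Z fun z _ => mul_nonneg (Λ.hq z.1 z.2) (Real.exp_pos _).le
  linarith

private def prj : Stp → ℕ × ℕ
  | .T => (0, 0)
  | .L k a => (k, a)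
  | .R k a => (k, a)

private theorem let_le {Λ : GR.Law} {c r : ℝ} (h : ∀ Z : Finset (ℕ × ℕ), gw Λ c .T + ∑ z ∈ Z, gw Λ c (.R z.1 z.2) ≤ r)
    (S : Finset Stp) (hS : ∀ s ∈ S, ∀ k a, s ≠ .L k a) : ∑ s ∈ S, gw Λ c s ≤ r := by
  refine le_trans ?_ (h (S.image prj))
  have h1 : S ⊆ insert Stp.T ((S.image prj).image fun z : ℕ × ℕ => Stp.R z.1 z.2) := by
    intro s hs
    cases s with
    | T => exact Finset.mem_insert_self _ _
    | L k a => exact absurd rfl (hS _ hs k a)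
    | R k a =>
      refine Finset.mem_insert_of_mem (Finset.mem_image.2 ⟨(k, a), Finset.mem_image.2 ⟨_, hs, rfl⟩, rfl⟩)
  refine le_trans (Finset.sum_le_sum_of_subset_of_nonneg h1 fun s _ _ => gw_nonneg Λ c s) ?_
  have h2 : Stp.T ∉ (S.image prj).image fun z : ℕ × ℕ => Stp.R z.1 z.2 := by
    intro hm
    obtain ⟨z, _, hz⟩ := Finset.mem_image.1 hm
    cases hz
  rw [Finset.sum_insert h2, Finset.sum_image]
  intro z _ z' _ hzz
  have h3 : Stp.R z.1 z.2 = Stp.R z'.1 z'.2 := hzz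
  injection h3 with h4 h5
  exact Prod.ext h4 h5

private theorem letL_le {Λ : GR.Law} {c r : ℝ} (h : ∀ Z : Finset (ℕ × ℕ), gw Λ c .T + ∑ z ∈ Z, gw Λ c (.R z.1 z.2) ≤ r)
    (S : Finset Stp) (hS : ∀ s ∈ S, ∃ k a, s = .L k a) : ∑ s ∈ S, gw Λ c s ≤ r := by
  refine le_trans ?_ (h (S.image prj))
  have h1 : S ⊆ (S.image prj).image fun z : ℕ × ℕ => Stp.L z.1 z.2 := by
    intro s hs
    obtain ⟨k, a, rfl⟩ := hS s hs
    exact Finset.mem_image.2 ⟨(k, a), Finset.mem_image.2 ⟨_, hs, rfl⟩, rfl⟩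
  refine le_trans (Finset.sum_le_sum_of_subset_of_nonneg h1 fun s _ _ => gw_nonneg Λ c s) ?_
  rw [Finset.sum_image]
  · have h3 : ∑ z ∈ S.image prj, gw Λ c (.L z.1 z.2) = ∑ z ∈ S.image prj, gw Λ c (.R z.1 z.2) := rfl
    rw [h3]
    have := gw_nonneg Λ c .T
    linarith
  · intro z _ z' _ hzz
    have h3 : Stp.L z.1 z.2 = Stp.L z'.1 z'.2 := hzz
    injection h3 with h4 h5
    exact Prod.ext h4 h5

private theorem so_bd {Λ : GR.Law} {c r : ℝ} (hr1 : r < 1) (h : ∀ Z : Finset (ℕ × ℕ), gw Λ c .T + ∑ z ∈ Z, gw Λ c (.R z.1 z.2) ≤ r)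
    (N : ℕ) : ∀ 𝒲 : Finset (List Stp), (∀ w ∈ 𝒲, SO w ∧ w.length ≤ N) → ∑ w ∈ 𝒲, gW Λ c w ≤ 1 / (1 - r) := by
  have hr0 : 0 ≤ r := by
    have := h ∅
    rw [Finset.sum_empty, add_zero] at this
    exact le_trans (gw_nonneg Λ c .T) this
  have hd : 0 < 1 - r := sub_pos.2 hr1
  have hK : 1 + r * (1 / (1 - r)) = 1 / (1 - r) := by
    field_simp
    ring
  induction N with
  | zero =>
    intro 𝒲 hW
    have h1 : 𝒲 ⊆ {[]} := by
      intro w hw
      rw [Finset.mem_singleton]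
      exact List.length_eq_zero_iff.1 (Nat.le_zero.1 (hW w hw).2)
    refine le_trans (Finset.sum_le_sum_of_subset_of_nonneg h1 fun w _ _ => gW_nonneg Λ c w) ?_
    rw [Finset.sum_singleton, gW_nil, le_div_iff₀ hd]
    linarith
  | succ N ih =>
    intro 𝒲 hW
    set 𝒱 := 𝒲.erase [] with h𝒱
    have h1 : 𝒲 ⊆ insert [] 𝒱 := by
      intro w hw
      by_cases hw0 : w = []
      · rw [hw0]; exact Finset.mem_insert_self _ _
      · exact Finset.mem_insert_of_mem (Finset.mem_erase.2 ⟨hw0, hw⟩)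
    refine le_trans (Finset.sum_le_sum_of_subset_of_nonneg h1 fun w _ _ => gW_nonneg Λ c w) ?_
    rw [Finset.sum_insert (Finset.notMem_erase _ _), gW_nil, ← hK]
    refine add_le_add le_rfl ?_
    set S : Finset Stp := 𝒱.image fun w => w.headD .T with hS
    set U : Finset (List Stp) := 𝒱.image List.tail with hU
    have hex : ∀ w ∈ 𝒱, ∃ s u, w = s :: u := by
      intro w hw
      cases w with
      | nil => exact absurd rfl (Finset.mem_erase.1 hw).1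
      | cons s u => exact ⟨s, u, rfl⟩
    have h2 : 𝒱 ⊆ (S ×ˢ U).image fun z : Stp × List Stp => z.1 :: z.2 := by
      intro w hw
      obtain ⟨s, u, rfl⟩ := hex w hw
      refine Finset.mem_image.2 ⟨(s, u), Finset.mem_product.2 ⟨Finset.mem_image.2 ⟨_, hw, rfl⟩, Finset.mem_image.2 ⟨_, hw, rfl⟩⟩, rfl⟩
    refine le_trans (Finset.sum_le_sum_of_subset_of_nonneg h2 fun w _ _ => gW_nonneg Λ c w) ?_
    rw [Finset.sum_image (by
      intro z _ z' _ hzz
      have h3 : z.1 :: z.2 = z'.1 :: z'.2 := hzz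
      injection h3 with h4 h5
      exact Prod.ext h4 h5)]
    have h3 : ∑ z ∈ S ×ˢ U, gW Λ c (z.1 :: z.2) = (∑ s ∈ S, gw Λ c s) * ∑ u ∈ U, gW Λ c u := by
      rw [Finset.sum_mul_sum, Finset.sum_product]
      refine Finset.sum_congr rfl fun s _ => Finset.sum_congr rfl fun u _ => ?_
      exact gW_cons Λ c s u
    rw [h3]
    refine mul_le_mul (let_le h S ?_) (ih U ?_) (Finset.sum_nonneg fun u _ => gW_nonneg Λ c u) hr0
    · intro s hs
      obtain ⟨w, hw, hws⟩ := Finset.mem_image.1 hs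
      obtain ⟨s', u, rfl⟩ := hex w hw
      have h4 : s' = s := hws
      rw [← h4]
      exact (hW _ (Finset.mem_erase.1 hw).2).1 s' List.mem_cons_self
    · intro u hu
      obtain ⟨w, hw, hwu⟩ := Finset.mem_image.1 hu
      obtain ⟨s', u', rfl⟩ := hex w hw
      have h4 : u' = u := hwu
      rw [← h4]
      obtain ⟨h5, h6⟩ := hW _ (Finset.mem_erase.1 hw).2
      refine ⟨fun s hs => h5 s (List.mem_cons_of_mem _ hs), ?_⟩
      rw [List.length_cons] at h6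
      omega

private theorem sc_bd {Λ : GR.Law} {c r K : ℝ} (h : ∀ Z : Finset (ℕ × ℕ), gw Λ c .T + ∑ z ∈ Z, gw Λ c (.R z.1 z.2) ≤ r)
    (hK : ∀ 𝒲 : Finset (List Stp), (∀ w ∈ 𝒲, SO w) → ∑ w ∈ 𝒲, gW Λ c w ≤ K) (hK0 : 0 ≤ K)
    (𝒲 : Finset (List Stp)) (hW : ∀ w ∈ 𝒲, SC w) : ∑ w ∈ 𝒲, gW Λ c w ≤ K * r := by
  set S : Finset Stp := 𝒲.image fun w => w.getLastD .T with hS
  set U : Finset (List Stp) := 𝒲.image List.dropLast with hU
  have h2 : 𝒲 ⊆ (U ×ˢ S).image fun z : List Stp × Stp => z.1 ++ [z.2] := by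
    intro w hw
    obtain ⟨u, k, a, rfl, _⟩ := hW w hw
    refine Finset.mem_image.2 ⟨(u, .L k a), Finset.mem_product.2 ⟨Finset.mem_image.2 ⟨_, hw, ?_⟩, Finset.mem_image.2 ⟨_, hw, ?_⟩⟩, rfl⟩
    · exact List.dropLast_concat
    · simp
  refine le_trans (Finset.sum_le_sum_of_subset_of_nonneg h2 fun w _ _ => gW_nonneg Λ c w) ?_
  rw [Finset.sum_image (by
    intro z _ z' _ hzz
    have h3 : z.1 ++ [z.2] = z'.1 ++ [z'.2] := hzz
    obtain ⟨h4, h5⟩ := List.append_inj' h3 rfl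
    injection h5 with h6
    exact Prod.ext h4 h6)]
  have h3 : ∑ z ∈ U ×ˢ S, gW Λ c (z.1 ++ [z.2]) = (∑ u ∈ U, gW Λ c u) * ∑ s ∈ S, gw Λ c s := by
    rw [Finset.sum_mul_sum, Finset.sum_product]
    refine Finset.sum_congr rfl fun u _ => Finset.sum_congr rfl fun s _ => ?_
    show gW Λ c (u ++ [s]) = _
    rw [gW_append, gW_cons, gW_nil, mul_one]
  rw [h3]
  refine mul_le_mul (hK U ?_) (letL_le h S ?_) (Finset.sum_nonneg fun s _ => gw_nonneg Λ c s) hK0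
  · intro u hu
    obtain ⟨w, hw, hwu⟩ := Finset.mem_image.1 hu
    obtain ⟨u', k, a, rfl, hso⟩ := hW w hw
    have h4 : u' = u := by rw [← hwu]; exact List.dropLast_concat.symm
    rw [← h4]
    exact hso
  · intro s hs
    obtain ⟨w, hw, hws⟩ := Finset.mem_image.1 hs
    obtain ⟨u', k, a, rfl, _⟩ := hW w hw
    refine ⟨k, a, ?_⟩
    rw [← hws]
    simp

theorem so_sum {x : ℝ} (hx : 0 < x) : ∃ c K : ℝ, 0 < c ∧ 0 < K ∧ ∀ 𝒲 : Finset (List Stp), (∀ w ∈ 𝒲, SO w ∨ SC w) →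
    ∑ w ∈ 𝒲, PRW x w * Real.exp (c * (3 * wvol w)) ≤ K := by
  obtain ⟨c, r, hc, hr1, h⟩ := ex_c (law hx)
  have hd : 0 < 1 - r := sub_pos.2 hr1
  have hr0 : 0 ≤ r := by
    have := h ∅
    rw [Finset.sum_empty, add_zero] at this
    exact le_trans (gw_nonneg (law hx) c .T) this
  have hKp : 0 < 1 / (1 - r) := by positivity
  have hO : ∀ 𝒲 : Finset (List Stp), (∀ w ∈ 𝒲, SO w) → ∑ w ∈ 𝒲, gW (law hx) c w ≤ 1 / (1 - r) := by
    intro 𝒲 hW
    refine so_bd hr1 h (𝒲.sup List.length) 𝒲 fun w hw => ⟨hW w hw, ?_⟩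
    exact Finset.le_sup (f := List.length) hw
  refine ⟨c, 2 * (1 / (1 - r)), hc, by positivity, fun 𝒲 hW => ?_⟩
  have h1 : ∑ w ∈ 𝒲, PRW x w * Real.exp (c * (3 * wvol w)) = ∑ w ∈ 𝒲, gW (law hx) c w := by
    refine Finset.sum_congr rfl fun w _ => ?_
    rw [gW_eq]
    rfl
  rw [h1]
  have h2 : 𝒲 ⊆ 𝒲.filter SO ∪ 𝒲.filter SC := by
    intro w hw
    rcases hW w hw with h3 | h3
    · exact Finset.mem_union_left _ (Finset.mem_filter.2 ⟨hw, h3⟩)
    · exact Finset.mem_union_right _ (Finset.mem_filter.2 ⟨hw, h3⟩)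
  refine le_trans (Finset.sum_le_sum_of_subset_of_nonneg h2 fun w _ _ => gW_nonneg (law hx) c w) ?_
  have h4 : ∑ w ∈ 𝒲.filter SO ∪ 𝒲.filter SC, gW (law hx) c w ≤
      ∑ w ∈ 𝒲.filter SO, gW (law hx) c w + ∑ w ∈ 𝒲.filter SC, gW (law hx) c w := by
    rw [← Finset.sum_union_inter]
    have := Finset.sum_nonneg (s := 𝒲.filter SO ∩ 𝒲.filter SC) fun w _ => gW_nonneg (law hx) c w
    linarith
  have h5 := hO (𝒲.filter SO) fun w hw => (Finset.mem_filter.1 hw).2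
  have h6 := sc_bd h hO hKp.le (𝒲.filter SC) fun w hw => (Finset.mem_filter.1 hw).2
  have h7 : 1 / (1 - r) * r ≤ 1 / (1 - r) := by
    have := mul_le_mul_of_nonneg_left hr1.le hKp.le
    linarith
  linarith

end SYS.ST
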